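import Pool.Agent.Z15.D

/-!
A rational curve through a general point of a double covering.
-/

set_option autoImplicit false
set_option linter.all false

open FF Polynomial Pool.Agent.W603.LV Pool.Agent.W602.GT Pool.Agent.N162.BC

namespace Pool.Agent.Z15

theorem exists_lift {B M W : Type} [Field B] [Field M] [CommRing W] (φ : W →+* B) (ψ : W →+* M)
    (h : ∀ w, φ w = 0 ↔ ψ w = 0) (hf : ∀ b : B, ∃ P Q : W, φ Q ≠ 0 ∧ b = φ P / φ Q) :
    ∃ τ : B →+* M, ∀ w, τ (φ w) = ψ w := by
  have h0 : ∀ w, φ w ≠ 0 → ψ w ≠ 0 := fun w hw h' => hw ((h w).2 h')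
  have key : ∀ P Q P' Q' : W, φ Q ≠ 0 → φ Q' ≠ 0 → φ P / φ Q = φ P' / φ Q' →
      ψ P / ψ Q = ψ P' / ψ Q' := by
    intro P Q P' Q' hQ hQ' he
    rw [div_eq_div_iff hQ hQ'] at he
    rw [div_eq_div_iff (h0 Q hQ) (h0 Q' hQ')]
    have h1 : φ (P * Q' - P' * Q) = 0 := by
      rw [map_sub, map_mul, map_mul, he, sub_self]
    have h2 := (h _).1 h1
    rw [map_sub, map_mul, map_mul] at h2
    exact sub_eq_zero.1 h2
  choose P Q hQ hPQ using hf
  have hval : ∀ (b : B) (p q : W), φ q ≠ 0 → b = φ p / φ q → ψ (P b) / ψ (Q b) = ψ p / ψ q := by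
    intro b p q hq hb
    exact key _ _ _ _ (hQ b) hq (by rw [← hPQ b]; exact hb)
  refine ⟨{
    toFun := fun b => ψ (P b) / ψ (Q b)
    map_one' := ?_
    map_mul' := fun a b => ?_
    map_zero' := ?_
    map_add' := fun a b => ?_ }, fun w => ?_⟩
  · change ψ (P 1) / ψ (Q 1) = 1
    rw [hval 1 1 1 (by rw [map_one]; exact one_ne_zero) (by rw [map_one, div_one]), map_one,
      div_one]
  · change ψ (P (a * b)) / ψ (Q (a * b)) = _ * _
    rw [hval (a * b) (P a * P b) (Q a * Q b) (by rw [map_mul]; exact mul_ne_zero (hQ a) (hQ b))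
      (by rw [map_mul, map_mul, ← div_mul_div_comm, ← hPQ a, ← hPQ b]), map_mul, map_mul,
      div_mul_div_comm]
  · change ψ (P 0) / ψ (Q 0) = 0
    rw [hval 0 0 1 (by rw [map_one]; exact one_ne_zero) (by rw [map_zero, zero_div]), map_zero,
      zero_div]
  · change ψ (P (a + b)) / ψ (Q (a + b)) = _ + _
    rw [hval (a + b) (P a * Q b + Q a * P b) (Q a * Q b)
      (by rw [map_mul]; exact mul_ne_zero (hQ a) (hQ b))
      (by rw [map_mul, map_add, map_mul, map_mul, ← div_add_div _ _ (hQ a) (hQ b), ← hPQ a,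
        ← hPQ b]), map_mul, map_add, map_mul, map_mul, ← div_add_div _ _ (h0 _ (hQ a))
        (h0 _ (hQ b))]
  · change ψ (P (φ w)) / ψ (Q (φ w)) = _
    rw [hval (φ w) w 1 (by rw [map_one]; exact one_ne_zero) (by rw [map_one, div_one]), map_one,
      div_one]

section

variable {n : ℕ} {A : Type} [CommRing A] [Algebra ℂ A]

/-- evaluation at `(t, x)` -/
noncomputable def ev1 (t : Fin n → A) (x : A) : (MvPolynomial (Fin n) ℂ)[X] →+* A :=
  Polynomial.eval₂RingHom (MvPolynomial.aeval t : MvPolynomial (Fin n) ℂ →ₐ[ℂ] A).toRingHom x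

/-- evaluation at `(t, x, y)` -/
noncomputable def ev2 (t : Fin n → A) (x y : A) : (MvPolynomial (Fin n) ℂ)[X][X] →+* A :=
  Polynomial.eval₂RingHom (ev1 t x) y

theorem ev1_apply (t : Fin n → A) (x : A) (F : (MvPolynomial (Fin n) ℂ)[X]) :
    ev1 t x F = evF F t x := rfl

theorem ev2_C (t : Fin n → A) (x y : A) (F : (MvPolynomial (Fin n) ℂ)[X]) :
    ev2 t x y (C F) = ev1 t x F := by
  unfold ev2
  rw [coe_eval₂RingHom, eval₂_C]

theorem ev2_X (t : Fin n → A) (x y : A) : ev2 t x y X = y := by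
  unfold ev2
  rw [coe_eval₂RingHom, eval₂_X]

theorem ev1_C (t : Fin n → A) (x : A) (F : MvPolynomial (Fin n) ℂ) :
    ev1 t x (C F) = MvPolynomial.aeval t F := by
  unfold ev1
  rw [coe_eval₂RingHom, eval₂_C]
  rfl

theorem ev1_X (t : Fin n → A) (x : A) : ev1 t x X = x := by
  unfold ev1
  rw [coe_eval₂RingHom, eval₂_X]

end

theorem val_ev2 {n : ℕ} {Ω M : Type} [Field Ω] [Algebra ℂ Ω] [Field M] [Algebra Ω M]
    [Algebra ℂ M] [IsScalarTower ℂ Ω M] (v : Place Ω M) (t : Fin n → M) (x y : M)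
    (T : Fin n → Ω) (X0 Y0 : Ω) (ht : ∀ i, Val v (t i) (T i)) (hx : Val v x X0)
    (hy : Val v y Y0) (P : (MvPolynomial (Fin n) ℂ)[X][X]) :
    Val v (ev2 t x y P) (ev2 T X0 Y0 P) := by
  have h1 : ∀ p : MvPolynomial (Fin n) ℂ, Val v (MvPolynomial.aeval t p) (MvPolynomial.aeval T p) := by
    intro p
    induction p using MvPolynomial.induction_on with
    | C a =>
      rw [MvPolynomial.aeval_C, MvPolynomial.aeval_C, IsScalarTower.algebraMap_apply ℂ Ω M]
      exact Val.const _
    | add p q hp hq =>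
      rw [map_add, map_add]
      exact hp.add hq
    | mul_X p i hp =>
      rw [map_mul, map_mul, MvPolynomial.aeval_X, MvPolynomial.aeval_X]
      exact hp.mul (ht i)
  have h2 : ∀ p : (MvPolynomial (Fin n) ℂ)[X], Val v (ev1 t x p) (ev1 T X0 p) := by
    intro p
    induction p using Polynomial.induction_on' with
    | add p q hp hq =>
      rw [map_add, map_add]
      exact hp.add hq
    | monomial k a =>
      rw [← C_mul_X_pow_eq_monomial, map_mul, map_mul, map_pow, map_pow, ev1_C, ev1_C, ev1_X,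
        ev1_X]
      exact (h1 a).mul (hx.pow k)
  induction P using Polynomial.induction_on' with
  | add p q hp hq =>
    rw [map_add, map_add]
    exact hp.add hq
  | monomial k a =>
    rw [← C_mul_X_pow_eq_monomial, map_mul, map_mul, map_pow, map_pow, ev2_C, ev2_C, ev2_X,
      ev2_X]
    exact (h2 a).mul (hy.pow k)

theorem ev2_map {n : ℕ} {A A' : Type} [CommRing A] [Algebra ℂ A] [CommRing A'] [Algebra ℂ A']
    (φ : A →ₐ[ℂ] A') (t : Fin n → A) (x y : A) (P : (MvPolynomial (Fin n) ℂ)[X][X]) :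
    φ (ev2 t x y P) = ev2 (fun i => φ (t i)) (φ x) (φ y) P := by
  induction P using Polynomial.induction_on' with
  | add p q hp hq => rw [map_add, map_add, map_add, hp, hq]
  | monomial k a =>
    rw [← C_mul_X_pow_eq_monomial, map_mul, map_mul, map_mul, map_pow, map_pow, map_pow, ev2_C,
      ev2_C, ev2_X, ev2_X, ev1_apply, ev1_apply, evF_map]

/-- **A rational curve through a general point.** -/
theorem exists_curve {n m : ℕ} (F : (MvPolynomial (Fin n) ℂ)[X])
    (hn : 0 < n) (hdeg : ∀ j, F.coeff j ≠ 0 → (F.coeff j).totalDegree + m * j ≤ 2 * (n + m))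
    (h3 : 3 ≤ F.natDegree) {B Ω : Type} [Field B] [Algebra ℂ B] [Field Ω] [Algebra ℂ Ω]
    [IsAlgClosed Ω] (t : Fin n → B) (x y : B) (hy0 : y ≠ 0) (hy : y ^ 2 = evF F t x)
    (hinj : ∀ A : (MvPolynomial (Fin n) ℂ)[X], evF A t x = 0 → A = 0)
    (hsep : (F.map (MvPolynomial.aeval t : MvPolynomial (Fin n) ℂ →ₐ[ℂ] B).toRingHom).Separable)
    (hfrac : ∀ b : B, ∃ P Q, ev2 t x y Q ≠ 0 ∧ b = ev2 t x y P / ev2 t x y Q)
    (σ : B →ₐ[ℂ] Ω) :
    ∃ (M : Type) (_ : Field M) (_ : Algebra Ω M) (_ : IsFF Ω M) (τ : B →+* M) (v0 : Place Ω M)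
      (f : M), (∀ z : ℂ, τ (algebraMap ℂ B z) = algebraMap Ω M (algebraMap ℂ Ω z)) ∧
        CentredAt τ v0 σ ∧ f ≠ 0 ∧ 0 < v0.ord f ∧
          ∀ v : Place Ω M, v ≠ v0 → v.ord f ≠ 0 → ∀ s : B →ₐ[ℂ] Ω, ¬ CentredAt τ v s := by
  classical
  have hcΩ : CharZero Ω := charZero_of_injective_algebraMap (algebraMap ℂ Ω).injective
  have hcomp : (MvPolynomial.aeval (fun i => σ (t i)) : MvPolynomial (Fin n) ℂ →ₐ[ℂ] Ω).toRingHom =
      (σ : B →+* Ω).comp (MvPolynomial.aeval t : MvPolynomial (Fin n) ℂ →ₐ[ℂ] B).toRingHom := by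
    apply MvPolynomial.ringHom_ext
    · intro z
      simp
    · intro i
      simp
  have hinj' : Function.Injective (MvPolynomial.aeval t : MvPolynomial (Fin n) ℂ →ₐ[ℂ] B).toRingHom := by
    rw [injective_iff_map_eq_zero]
    intro p hp
    have h1 := hinj (C p) (by rw [← ev1_apply, ev1_C]; exact hp)
    exact C_eq_zero.1 h1
  obtain ⟨d, xs, q1, q2, g, hd, hxs, hg, heq⟩ := exists_par hn F hdeg (fun i => σ (t i)) (σ x) (σ y)
    (by simpa using hy0) (by rw [← map_pow, hy, evF_map]) (by rw [hcomp, ← Polynomial.map_map]; exact hsep.map)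
    (by
      rw [hcomp, ← Polynomial.map_map, Polynomial.natDegree_map_eq_of_injective (σ : B →+* Ω).injective,
        Polynomial.natDegree_map_eq_of_injective hinj']
      exact h3)
  obtain ⟨j, hj⟩ : ∃ j, d j ≠ 0 := by
    by_contra hcon
    push Not at hcon
    exact hd (funext hcon)
  have htj : t j ≠ 0 := by
    intro h0
    have h1 : (MvPolynomial.X j : MvPolynomial (Fin n) ℂ) = 0 := hinj' (by
      rw [map_zero]
      change MvPolynomial.aeval t (MvPolynomial.X j) = 0
      rw [MvPolynomial.aeval_X, h0])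
    exact MvPolynomial.X_ne_zero j h1
  have hTj : σ (t j) ≠ 0 := by simpa using htj
  obtain ⟨M, a1, a2, a3, s, w, v0, v1, f, hw, hs0, hw0, hs1, hf0, hfo, hfv⟩ :=
    exists_conic q1 q2 (-(σ (t j)) / d j) (div_ne_zero (neg_ne_zero.2 hTj) hj)
  let b1 : Algebra ℂ M := ((algebraMap Ω M).comp (algebraMap ℂ Ω)).toAlgebra
  have b2 : IsScalarTower ℂ Ω M := IsScalarTower.of_algebraMap_eq fun z => rfl
  obtain ⟨tt, htt⟩ : ∃ tt : Fin n → M, tt = fun i => algebraMap Ω M (σ (t i)) +
    algebraMap Ω M (d i) * s := ⟨_, rfl⟩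
  obtain ⟨xx, hxx⟩ : ∃ xx : M, xx = Polynomial.aeval s xs := ⟨_, rfl⟩
  obtain ⟨yy, hyy⟩ : ∃ yy : M, yy = w * Polynomial.aeval s g := ⟨_, rfl⟩
  have hyy2 : yy ^ 2 = evF F tt xx := by
    have h1 := congrArg (Polynomial.aeval s) heq
    have h2 : Polynomial.aeval s (evF F (fun i => C (σ (t i)) + C (d i) * X) xs) = evF F tt xx := by
      have h4 := evF_map F ((Polynomial.aeval s : Polynomial Ω →ₐ[Ω] M).restrictScalars ℂ)
        (fun i => C (σ (t i)) + C (d i) * X) xs
      refine h4.trans ?_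
      rw [htt, hxx]
      congr 1
      funext i
      change Polynomial.aeval s (C (σ (t i)) + C (d i) * X) = _
      rw [map_add, map_mul, aeval_C, aeval_C, aeval_X]
    rw [h2] at h1
    rw [h1, hyy, mul_pow, hw]
    simp only [map_mul, map_add, map_pow, map_one, aeval_C, aeval_X]
  have hvt : ∀ i, Val v0 (tt i) (σ (t i)) := by
    intro i
    rw [htt]
    have h1 := (Val.const (v := v0) (σ (t i))).add ((Val.const (v := v0) (d i)).mul hs0)
    rwa [mul_zero, add_zero] at h1
  have hvx : Val v0 xx (σ x) := by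
    rw [hxx, ← hxs]
    exact hs0.aeval xs
  have hvy : Val v0 yy (σ y) := by
    rw [hyy, ← hg]
    have h1 := hw0.mul (hs0.aeval g)
    rwa [one_mul] at h1
  have hval : ∀ P, Val v0 (ev2 tt xx yy P) (σ (ev2 t x y P)) := by
    intro P
    rw [ev2_map]
    exact val_ev2 v0 tt xx yy _ _ _ hvt hvx hvy P
  have hval1 : ∀ p, Val v0 (ev1 tt xx p) (σ (ev1 t x p)) := by
    intro p
    have h1 := hval (C p)
    rwa [ev2_C, ev2_C] at h1
  have hker : ∀ P, ev2 t x y P = 0 ↔ ev2 tt xx yy P = 0 := by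
    intro P
    constructor
    · intro hP
      have hmon : (X ^ 2 - C F : (MvPolynomial (Fin n) ℂ)[X][X]).Monic :=
        monic_X_pow_sub_C F two_ne_zero
      have h1 := Polynomial.modByMonic_add_div P (X ^ 2 - C F)
      have h2 : (P %ₘ (X ^ 2 - C F)).natDegree ≤ 1 := by
        have h4 := Polynomial.natDegree_modByMonic_lt P hmon (by
          intro h0
          have h5 := congrArg natDegree h0
          rw [natDegree_X_pow_sub_C, natDegree_one] at h5
          exact absurd h5 (by norm_num))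
        rw [natDegree_X_pow_sub_C] at h4
        omega
      obtain ⟨a, b, hab⟩ := exists_eq_X_add_C_of_natDegree_le_one h2
      rw [hab] at h1
      have hφμ : ev2 t x y (X ^ 2 - C F) = 0 := by
        refine (RingHom.map_sub (ev2 t x y) (X ^ 2) (C F)).trans ?_
        rw [map_pow, ev2_X, ev2_C, ev1_apply, hy, sub_self]
      have hψμ : ev2 tt xx yy (X ^ 2 - C F) = 0 := by
        refine (RingHom.map_sub (ev2 tt xx yy) (X ^ 2) (C F)).trans ?_
        rw [map_pow, ev2_X, ev2_C, ev1_apply, hyy2, sub_self]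
      have hφ : ev1 t x a * y + ev1 t x b = 0 := by
        rw [← h1, map_add, map_mul, hφμ, zero_mul, add_zero, map_add, map_mul, ev2_C, ev2_C,
          ev2_X] at hP
        exact hP
      have hψ : ev2 tt xx yy P = ev1 tt xx a * yy + ev1 tt xx b := by
        rw [← h1, map_add, map_mul, hψμ, zero_mul, add_zero, map_add, map_mul, ev2_C, ev2_C,
          ev2_X]
      rw [hψ]
      have h5 : b ^ 2 - a ^ 2 * F = 0 := by
        apply hinj
        rw [← ev1_apply, map_sub, map_mul, map_pow, map_pow, ev1_apply t x F, ← hy]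
        linear_combination (ev1 t x b - ev1 t x a * y) * hφ
      have h6 := congrArg (ev1 tt xx) h5
      rw [map_sub, map_mul, map_pow, map_pow, map_zero, ev1_apply tt xx F, ← hyy2] at h6
      have h7 : (ev1 tt xx a * yy + ev1 tt xx b) * (ev1 tt xx b - ev1 tt xx a * yy) = 0 := by
        linear_combination h6
      rcases mul_eq_zero.1 h7 with h8 | h8
      · exact h8
      · have h9 := (hval1 b).sub ((hval1 a).mul hvy)
        rw [h8] at h9
        have h10 := Val.const (v := v0) (0 : Ω)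
        rw [map_zero] at h10
        have h11 := h9.unique h10
        rw [← map_mul, ← map_sub] at h11
        have h12 : ev1 t x b - ev1 t x a * y = 0 := by
          have h13 : σ (ev1 t x b - ev1 t x a * y) = σ 0 := by rw [h11, map_zero]
          exact σ.injective h13
        have hcB : CharZero B := charZero_of_injective_algebraMap (algebraMap ℂ B).injective
        have h14 : ev1 t x b = 0 := by
          have h15 : (2 : B) * ev1 t x b = 0 := by linear_combination hφ + h12
          exact (mul_eq_zero.1 h15).resolve_left two_ne_zero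
        have h16 : ev1 t x a = 0 := by
          rw [h14, zero_sub, neg_eq_zero] at h12
          exact (mul_eq_zero.1 h12).resolve_right hy0
        rw [hinj a h16, hinj b h14, map_zero, zero_mul, add_zero]
    · intro hP
      have h1 := hval P
      rw [hP] at h1
      have h2 := Val.const (v := v0) (0 : Ω)
      rw [map_zero] at h2
      have h4 := h1.unique h2
      have h5 : σ (ev2 t x y P) = σ 0 := by rw [h4, map_zero]
      exact σ.injective h5
  obtain ⟨τ, hτ⟩ := exists_lift (B := B) (M := M) (W := (MvPolynomial (Fin n) ℂ)[X][X])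
    (ev2 t x y) (ev2 tt xx yy) hker hfrac
  have hτt : ∀ i, τ (t i) = tt i := by
    intro i
    have h1 := hτ (C (C (MvPolynomial.X i)))
    rw [ev2_C, ev2_C, ev1_C, ev1_C, MvPolynomial.aeval_X, MvPolynomial.aeval_X] at h1
    exact h1
  refine ⟨M, a1, a2, a3, τ, v0, f, fun z => ?_, ?_, hf0, hfo, fun v hv hvf s' hc => ?_⟩
  · have h1 := hτ (C (C (MvPolynomial.C z)))
    rw [ev2_C, ev2_C, ev1_C, ev1_C, MvPolynomial.aeval_C, MvPolynomial.aeval_C] at h1
    exact h1
  · rw [centred_iff]
    intro b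
    obtain ⟨P, Q, hQ, rfl⟩ := hfrac b
    rw [map_div₀, map_div₀, hτ, hτ]
    exact (hval P).div (hval Q) (by simpa using hQ)
  · rw [hfv v hv hvf, centred_iff] at hc
    have h1 : Val v1 (τ (t j)) (s' (t j)) := hc (t j)
    have h2 : Val v1 (τ (t j)) 0 := by
      rw [hτt, htt]
      have h4 := (Val.const (v := v1) (σ (t j))).add ((Val.const (v := v1) (d j)).mul hs1)
      have h5 : σ (t j) + d j * (-(σ (t j)) / d j) = 0 := by
        field_simp
        ring
      rwa [h5] at h4
    have h4 := h1.unique h2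
    exact htj (by simpa using h4)

end Pool.Agent.Z15
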