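import Pool.Agent.N162.BC.Pull

/-!
Zero-cycles on one fibre of a fibration in curves.
-/

set_option autoImplicit false
set_option linter.all false

open FF Polynomial Pool.Agent.W603.LV Pool.Agent.W602.GT Pool.Agent.N162.BC

namespace Pool.Agent.Z15

/-- A cycle on the generic point of one fibre on which the traces of the regular differentials of
the fibre vanish is rationally equivalent to zero. -/
theorem fib_mem (L K Ω : Type) [Field L] [Field K] [Field Ω] [Algebra ℂ L] [Algebra ℂ K]
    [Algebra ℂ Ω] [Algebra L K] [Algebra L Ω] [IsScalarTower ℂ L K] [IsScalarTower ℂ L Ω]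
    [IsAlgClosed Ω] [IsFF L K] (h : algebraicClosure L K = ⊥)
    (hΩ : Algebra.trdeg L Ω = 1) (δ : Derivation L Ω Ω) (hδ : δ ≠ 0) {x : K}
    (hx : Transcendental L x) (D0 : Derivation L K K) (hD0 : D0 x = 1)
    (c : (K →ₐ[L] Ω) →₀ ℤ)
    (hc : ∀ T : K, (∀ (p : Place L K) (π : K), p.ord π = 1 → Ge p (p.ord (D0 π)) T) →
      ∑ σ ∈ c.support, (c σ : Ω) * (σ T * δ (σ x)) = 0) :
    c.mapDomain (fun σ : K →ₐ[L] Ω => σ.restrictScalars ℂ) ∈ Rat K Ω := by
  classical
  have hcΩ : CharZero Ω := charZero_of_injective_algebraMap (algebraMap ℂ Ω).injective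
  have hrs : Function.Injective (fun σ : K →ₐ[L] Ω => σ.restrictScalars ℂ) :=
    AlgHom.restrictScalars_injective ℂ
  obtain ⟨M, hM, a1, a2, hMF, hLM, f, hf0, hf⟩ := fibre L K Ω h hΩ δ hδ hx D0 hD0 c hc
  refine AddSubgroup.subset_closure ⟨M, hM, a1, hMF, algebraMap K M, f, ?_, hf0, ?_⟩
  · intro z
    have h1 := hLM (algebraMap ℂ L z)
    rw [← IsScalarTower.algebraMap_apply ℂ L Ω, ← IsScalarTower.algebraMap_apply ℂ L K] at h1
    exact h1.symm
  · intro σ
    by_cases hσ : ∃ σ' : K →ₐ[L] Ω, σ'.restrictScalars ℂ = σ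
    · obtain ⟨σ', rfl⟩ := hσ
      rw [Finsupp.mapDomain_apply hrs]
      obtain ⟨P, hP, hPv⟩ := hf σ'
      have h1 : {v : Place Ω M | CentredAt (algebraMap K M) v (σ'.restrictScalars ℂ)} = {P} := by
        ext v
        rw [Set.mem_ofPred_eq, Set.mem_singleton_iff, ← hPv v]
        unfold CentredAt Ge
        refine forall_congr' fun κ => ?_
        have h2 : (σ'.restrictScalars ℂ) κ = σ' κ := rfl
        rw [h2, sub_eq_zero]
        constructor
        · rintro (h | h)
          · exact Or.inl h
          · exact Or.inr (by omega)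
        · rintro (h | h)
          · exact Or.inl h
          · exact Or.inr (by omega)
      rw [h1, finsum_mem_singleton, hP]
    · rw [Finsupp.mapDomain_notin_range c σ (fun h => hσ h)]
      have h1 : {v : Place Ω M | CentredAt (algebraMap K M) v σ} = ∅ := by
        rw [Set.eq_empty_iff_forall_notMem]
        intro v hv
        apply hσ
        refine ⟨{ σ with commutes' := fun l => ?_ }, rfl⟩
        have h2 : algebraMap K M (algebraMap L K l) = algebraMap Ω M (algebraMap L Ω l) :=
          (hLM l).symm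
        have h3 : Ge v 1 (algebraMap Ω M (algebraMap L Ω l - σ (algebraMap L K l))) := by
          rw [map_sub, ← h2]
          rcases hv (algebraMap L K l) with h | h
          · exact Or.inl (sub_eq_zero.2 h)
          · exact Or.inr (by omega)
        exact (sub_eq_zero.1 (not_ge_const h3)).symm
      rw [h1, finsum_mem_empty]

end Pool.Agent.Z15
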