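import Pool.Agent.Z15.A
import Pool.Agent.Helper386.D5V.Helper399_FF4

/-!
The inverse image of a zero-cycle under a generically finite map.
-/

set_option autoImplicit false
set_option linter.all false

open FF Polynomial Pool.Agent.W603.LV Pool.Agent.W602.GT Pool.Agent.N162.BC
open scoped TensorProduct

namespace Pool.Agent.Z15

theorem exists_comp (B K' M : Type) [Field B] [Field K'] [Field M] [Algebra B K']
    [FiniteDimensional B K'] (τ : B →+* M) :
    ∃ (M' : Type) (_ : Field M') (_ : Algebra M M') (τ' : K' →+* M'), FiniteDimensional M M' ∧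
      ∀ b, τ' (algebraMap B K' b) = algebraMap M M' (τ b) := by
  let _ : Algebra B M := τ.toAlgebra
  obtain ⟨I, hI⟩ := Ideal.exists_maximal (M ⊗[B] K')
  let _ : Field ((M ⊗[B] K') ⧸ I) := Ideal.Quotient.field I
  refine ⟨(M ⊗[B] K') ⧸ I, inferInstance, inferInstance,
    (Ideal.Quotient.mk I).comp (Algebra.TensorProduct.includeRight : K' →ₐ[B] M ⊗[B] K').toRingHom,
    inferInstance, fun b => ?_⟩
  have h1 : (Algebra.TensorProduct.includeRight : K' →ₐ[B] M ⊗[B] K') (algebraMap B K' b) =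
      algebraMap M (M ⊗[B] K') (τ b) := by
    rw [AlgHom.commutes]
    rfl
  change Ideal.Quotient.mk I ((Algebra.TensorProduct.includeRight : K' →ₐ[B] M ⊗[B] K')
    (algebraMap B K' b)) = _
  rw [h1]
  rfl

section

variable {B K Ω : Type} [Field B] [Algebra ℂ B] [Field K] [Algebra ℂ K] [Algebra B K]
    [IsScalarTower ℂ B K] [FiniteDimensional B K] [Field Ω] [Algebra ℂ Ω]

theorem fib_aux (σ : B →ₐ[ℂ] Ω) [IsAlgClosed Ω] : ∃ F : Finset (K →ₐ[ℂ] Ω),
    (∀ s, s ∈ F ↔ restr B Ω s = σ) ∧ F.card = Module.finrank B K ∧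
      ∀ a : K, ∑ s ∈ F, s a = σ (Algebra.trace B K a) := by
  classical
  let _ : Algebra B Ω := σ.toRingHom.toAlgebra
  have hσ : ∀ b, algebraMap B Ω b = σ b := fun b => rfl
  have : IsScalarTower ℂ B Ω := IsScalarTower.of_algebraMap_eq fun z => (σ.commutes z).symm
  have hchar : CharZero B := charZero_of_injective_algebraMap (algebraMap ℂ B).injective
  have hinj : Function.Injective (fun s : K →ₐ[B] Ω => s.restrictScalars ℂ) :=
    AlgHom.restrictScalars_injective ℂ
  refine ⟨Finset.univ.map ⟨fun s : K →ₐ[B] Ω => s.restrictScalars ℂ, hinj⟩, fun s => ?_, ?_, ?_⟩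
  · rw [Finset.mem_map]
    constructor
    · rintro ⟨s', -, rfl⟩
      ext b
      exact s'.commutes b
    · intro h
      exact ⟨{ s with commutes' := fun b => congrArg (fun q : B →ₐ[ℂ] Ω => q b) h },
        Finset.mem_univ _, rfl⟩
  · rw [Finset.card_map, Finset.card_univ]
    exact AlgHom.card B K Ω
  · intro a
    rw [Finset.sum_map, ← hσ, trace_eq_sum_embeddings (K := B) (L := K) Ω]
    rfl

variable (B K) in
/-- the points over a point -/
noncomputable def fib [IsAlgClosed Ω] (σ : B →ₐ[ℂ] Ω) : Finset (K →ₐ[ℂ] Ω) :=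
  (fib_aux (K := K) σ).choose

variable [IsAlgClosed Ω]

theorem mem_fib {σ : B →ₐ[ℂ] Ω} {s : K →ₐ[ℂ] Ω} : s ∈ fib B K σ ↔ restr B Ω s = σ :=
  (fib_aux (K := K) σ).choose_spec.1 s

theorem card_fib (σ : B →ₐ[ℂ] Ω) : (fib B K σ).card = Module.finrank B K :=
  (fib_aux (K := K) σ).choose_spec.2.1

theorem trace_fib (σ : B →ₐ[ℂ] Ω) (a : K) : ∑ s ∈ fib B K σ, s a = σ (Algebra.trace B K a) :=
  (fib_aux (K := K) σ).choose_spec.2.2 a

variable (B K) in
/-- the inverse image of a point -/
noncomputable def pre (σ : B →ₐ[ℂ] Ω) : (K →ₐ[ℂ] Ω) →₀ ℤ :=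
  ∑ s ∈ fib B K σ, Finsupp.single s 1

theorem pre_apply [DecidableEq (B →ₐ[ℂ] Ω)] (σ : B →ₐ[ℂ] Ω) (s : K →ₐ[ℂ] Ω) :
    pre B K σ s = if restr B Ω s = σ then 1 else 0 := by
  classical
  unfold pre
  rw [Finset.sum_apply']
  simp only [Finsupp.single_apply]
  rw [Finset.sum_ite_eq']
  simp only [mem_fib]

end

theorem gal_bij {B K' Ω : Type} [Field B] [Algebra ℂ B] [Field K'] [Algebra ℂ K'] [Algebra B K']
    [IsScalarTower ℂ B K'] [FiniteDimensional B K'] [IsGalois B K'] [Field Ω] [Algebra ℂ Ω]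
    [IsAlgClosed Ω] {s s' : K' →ₐ[ℂ] Ω} (h : restr B Ω s = restr B Ω s') :
    ∃! g : K' ≃ₐ[B] K', ∀ a, s' (g a) = s a := by
  classical
  let _ : Algebra B Ω := (restr B Ω s').toRingHom.toAlgebra
  let t' : K' →ₐ[B] Ω := { s' with commutes' := fun b => rfl }
  let t : K' →ₐ[B] Ω := { s with commutes' := fun b => congrArg (fun q : B →ₐ[ℂ] Ω => q b) h }
  have ht' : ∀ a, t' a = s' a := fun a => rfl
  have ht : ∀ a, t a = s a := fun a => rfl
  let φ : (K' ≃ₐ[B] K') → (K' →ₐ[B] Ω) := fun g => t'.comp (g : K' →ₐ[B] K')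
  have hinj : Function.Injective φ := by
    intro g g' hg
    ext a
    have h1 : t' (g a) = t' (g' a) := congrArg (fun q : K' →ₐ[B] Ω => q a) hg
    exact t'.injective h1
  have hcard : Nat.card (K' ≃ₐ[B] K') = Nat.card (K' →ₐ[B] Ω) := by
    rw [IsGalois.card_aut_eq_finrank, Nat.card_eq_fintype_card, AlgHom.card]
  have hbij : Function.Bijective φ := (Nat.bijective_iff_injective_and_card φ).2 ⟨hinj, hcard⟩
  obtain ⟨g, hg, huniq⟩ := hbij.existsUnique t
  refine ⟨g, fun a => ?_, fun g' hg' => huniq g' ?_⟩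
  · have h1 : φ g a = t a := congrArg (fun q : K' →ₐ[B] Ω => q a) hg
    exact h1
  · ext a
    exact hg' a

/-- the cycle defined by a function on a curve -/
theorem exists_div {K Ω M : Type} [Field K] [Algebra ℂ K] [Field Ω] [Algebra ℂ Ω] [Field M]
    [Algebra Ω M] [CharZero Ω] [IsFF Ω M] (τ : K →+* M)
    (hτ : ∀ z : ℂ, τ (algebraMap ℂ K z) = algebraMap Ω M (algebraMap ℂ Ω z)) {f : M}
    (hf0 : f ≠ 0) {S : Finset (Place Ω M)} (hS : ∀ v, v ∈ S ↔ v.ord f ≠ 0) :
    ∃ c ∈ Rat K Ω, ∀ (σ : K →ₐ[ℂ] Ω) (D : Place Ω M → Prop) [DecidablePred D],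
      (∀ v, D v ↔ CentredAt τ v σ) → c σ = ∑ v ∈ S, if D v then v.ord f else 0 := by
  classical
  obtain ⟨c, hc⟩ : ∃ c : (K →ₐ[ℂ] Ω) →₀ ℤ, c = ∑ v ∈ S,
      (if h : ∃ σ : K →ₐ[ℂ] Ω, CentredAt τ v σ then Finsupp.single h.choose (v.ord f) else 0) :=
    ⟨_, rfl⟩
  have key : ∀ (σ : K →ₐ[ℂ] Ω) (D : Place Ω M → Prop) [DecidablePred D],
      (∀ v, D v ↔ CentredAt τ v σ) → c σ = ∑ v ∈ S, if D v then v.ord f else 0 := by
    intro σ D hD h
    rw [hc, Finset.sum_apply']
    refine Finset.sum_congr rfl fun v _ => ?_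
    by_cases h1 : ∃ σ : K →ₐ[ℂ] Ω, CentredAt τ v σ
    · rw [dif_pos h1, Finsupp.single_apply]
      by_cases h2 : CentredAt τ v σ
      · rw [if_pos ((h v).2 h2), if_pos (centre_unique h1.choose_spec h2)]
      · rw [if_neg (fun h3 => h2 ((h v).1 h3)), if_neg]
        intro h3
        apply h2
        rw [← h3]
        exact h1.choose_spec
    · rw [dif_neg h1, if_neg (fun h3 => h1 ⟨σ, (h v).1 h3⟩)]
      rfl
  refine ⟨c, AddSubgroup.subset_closure ⟨M, inferInstance, inferInstance, inferInstance, τ, f, hτ,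
    hf0, fun σ => ?_⟩, key⟩
  have hfin : (Function.support fun v : Place Ω M => v.ord f).Finite := by
    refine S.finite_toSet.subset fun v hv => ?_
    exact (hS v).2 hv
  rw [finsum_mem_eq_sum_filter _ _ hfin, key σ (fun v => CentredAt τ v σ) (fun v => Iff.rfl),
    ← Finset.sum_filter]
  refine Finset.sum_congr ?_ fun _ _ => rfl
  ext v
  rw [Finset.mem_filter, Finset.mem_filter, Set.Finite.mem_toFinset, hS]
  rfl

section

variable {B Ω M : Type} [Field B] [Algebra ℂ B] [Field Ω] [Algebra ℂ Ω] [IsAlgClosed Ω]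
  [Field M] [Algebra Ω M] [IsFF Ω M]

/-- The inverse image, in the Galois case, of a point which is the divisor of a function on a
curve. -/
theorem pull_gal {K' : Type} [Field K'] [Algebra ℂ K'] [Algebra B K']
    [IsScalarTower ℂ B K'] [FiniteDimensional B K'] [IsGalois B K'] (τ : B →+* M)
    (hτ : ∀ z : ℂ, τ (algebraMap ℂ B z) = algebraMap Ω M (algebraMap ℂ Ω z)) (σ : B →ₐ[ℂ] Ω)
    (v0 : Place Ω M) (hv0 : CentredAt τ v0 σ) (f : M) (hf0 : f ≠ 0) (hf : 0 < v0.ord f)
    (hng : ∀ v : Place Ω M, v ≠ v0 → v.ord f ≠ 0 → ∀ s : B →ₐ[ℂ] Ω, ¬ CentredAt τ v s) :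
    ∃ N : ℕ, 0 < N ∧ N • pre B K' σ ∈ Rat K' Ω := by
  classical
  have hcΩ : CharZero Ω := charZero_of_injective_algebraMap (algebraMap ℂ Ω).injective
  obtain ⟨M', a1, a2, τ', a3, hτ'⟩ := exists_comp B K' M τ
  let b1 : Algebra Ω M' := ((algebraMap M M').comp (algebraMap Ω M)).toAlgebra
  have b2 : IsScalarTower Ω M M' := IsScalarTower.of_algebraMap_eq fun z => rfl
  have b3 : Algebra.EssFiniteType Ω M := IsFF.ess
  have b4 : IsFF Ω M' := by
    refine ⟨Algebra.EssFiniteType.comp Ω M M', ?_⟩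
    have h1 := trdeg_add_eq Ω M (A := M')
    have h2 : Algebra.trdeg M M' = 0 := by
      rw [trdeg_eq_zero_iff]
      infer_instance
    rw [h2, add_zero] at h1
    rw [← h1]
    exact IsFF.trdeg
  have hτz : ∀ z : ℂ, τ' (algebraMap ℂ K' z) = algebraMap Ω M' (algebraMap ℂ Ω z) := by
    intro z
    rw [IsScalarTower.algebraMap_apply ℂ B K', hτ', hτ]
    rfl
  obtain ⟨f', hf'⟩ : ∃ f', f' = algebraMap M M' f := ⟨_, rfl⟩
  have hf'0 : f' ≠ 0 := by
    rw [hf']
    simpa using hf0
  have hfin := finite_support (k := Ω) f'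
  have hfin' : (Function.support fun v : Place Ω M' => v.ord f').Finite := hfin
  obtain ⟨S, hS⟩ : ∃ S : Finset (Place Ω M'), ∀ v, v ∈ S ↔ v.ord f' ≠ 0 :=
    ⟨hfin'.toFinset, fun v => by rw [Set.Finite.mem_toFinset]; rfl⟩
  -- going down
  have hdown : ∀ (g : K' ≃ₐ[B] K') (w : Place Ω M') (s : K' →ₐ[ℂ] Ω), w ∈ S →
      CentredAt (τ'.comp (g : K' →+* K')) w s → restr B Ω s = σ ∧ ∃ e, Over w v0 e := by
    intro g w s hw hc
    rw [hS] at hw
    obtain ⟨e, v, hv⟩ := exists_over (K := M) w ⟨f, by rwa [← hf']⟩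
    have h1 : CentredAt τ v (restr B Ω s) := by
      intro b
      have h2 := hc (algebraMap B K' b)
      have h3 : (τ'.comp (g : K' →+* K')) (algebraMap B K' b) - algebraMap Ω M' (s (algebraMap B K' b))
          = algebraMap M M' (τ b - algebraMap Ω M (restr B Ω s b)) := by
        have e1 : (τ'.comp (g : K' →+* K')) (algebraMap B K' b) = algebraMap M M' (τ b) := by
          rw [← hτ']
          exact congrArg τ' (g.commutes b)
        rw [e1, map_sub]
        rfl
      by_cases h0 : τ b - algebraMap Ω M (restr B Ω s b) = 0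
      · exact Or.inl (sub_eq_zero.1 h0)
      right
      have h4 : 0 < w.ord (algebraMap M M' (τ b - algebraMap Ω M (restr B Ω s b))) := by
        rcases h2 with h2 | h2
        · rw [← sub_eq_zero, h3] at h2
          exact absurd ((map_eq_zero _).1 h2) h0
        · rwa [h3] at h2
      rw [hv.2] at h4
      have h5 : (0 : ℤ) < e := by exact_mod_cast hv.1
      exact (mul_pos_iff_of_pos_left h5).1 h4
    have h2 : v.ord f ≠ 0 := by
      intro h0
      rw [hf', hv.2, h0, mul_zero] at hw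
      exact hw rfl
    have h3 : v = v0 := by
      by_contra h3
      exact hng v h3 h2 _ h1
    rw [h3] at h1 hv
    exact ⟨centre_unique h1 hv0, e, hv⟩
  -- going up
  have hup : ∀ w : Place Ω M', (∃ e, Over w v0 e) → ∀ s : K' →ₐ[ℂ] Ω, restr B Ω s = σ →
      ∃! g : K' ≃ₐ[B] K', CentredAt (τ'.comp (g : K' →+* K')) w s := by
    rintro w ⟨e, he⟩ s hs
    have h1 : CentredAt (τ'.comp (algebraMap B K')) w σ := by
      intro b
      have h3 : τ'.comp (algebraMap B K') b - algebraMap Ω M' (σ b) =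
          algebraMap M M' (τ b - algebraMap Ω M (σ b)) := by
        rw [RingHom.comp_apply, map_sub, ← hτ']
        rfl
      rcases hv0 b with h4 | h4
      · left
        rw [← sub_eq_zero, h3, h4, sub_self, map_zero]
      · right
        rw [h3, he.2]
        have h5 : (0 : ℤ) < e := by exact_mod_cast he.1
        positivity
    obtain ⟨s', hs', hc'⟩ := lift_centre (K := B) hτz h1
    obtain ⟨g, hg, hu⟩ := gal_bij (hs.trans hs'.symm)
    refine ⟨g, fun a => ?_, fun g' hg' => hu g' fun a => ?_⟩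
    · rw [← hg a]
      exact hc' (g a)
    · have h2 := hc' (g' a)
      have h3 := hg' a
      have h4 : Ge w 1 (τ' (g' a) - algebraMap Ω M' (s' (g' a))) := by
        rcases h2 with h | h
        · exact Or.inl (sub_eq_zero.2 h)
        · exact Or.inr (by omega)
      have h5 : Ge w 1 (τ' (g' a) - algebraMap Ω M' (s a)) := by
        rcases h3 with h | h
        · exact Or.inl (sub_eq_zero.2 h)
        · exact Or.inr (by change 0 < w.ord (τ' (g' a) - algebraMap Ω M' (s a)) at h; omega)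
      have h6 := h5.sub h4
      rw [sub_sub_sub_cancel_left, ← map_sub] at h6
      exact sub_eq_zero.1 (not_ge_const h6)
  obtain ⟨N, hN⟩ : ∃ N : ℤ, N = ∑ w ∈ S with (∃ e, Over w v0 e), w.ord f' := ⟨_, rfl⟩
  have hpos : ∀ w : Place Ω M', (∃ e, Over w v0 e) → 0 < w.ord f' := by
    rintro w ⟨e, he⟩
    rw [hf', he.2]
    have h5 : (0 : ℤ) < e := by exact_mod_cast he.1
    positivity
  have hN0 : 0 < N := by
    obtain ⟨S', T, -, hT, hsum⟩ := exists_places_over (K' := M') v0
    obtain ⟨w, hw⟩ : S'.Nonempty := by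
      rw [Finset.nonempty_iff_ne_empty]
      rintro rfl
      rw [Finset.sum_empty] at hsum
      exact absurd hsum.symm (Module.finrank_pos (R := M) (M := M')).ne'
    obtain ⟨e, he, -⟩ := hT w hw
    rw [hN]
    refine Finset.sum_pos (fun w hw => hpos w (Finset.mem_filter.1 hw).2) ⟨w, ?_⟩
    rw [Finset.mem_filter, hS]
    exact ⟨(hpos w ⟨e, he⟩).ne', e, he⟩
  refine ⟨N.toNat, by omega, ?_⟩
  have hex : ∀ g : K' ≃ₐ[B] K', ∃ c ∈ Rat K' Ω, ∀ (s : K' →ₐ[ℂ] Ω) (D : Place Ω M' → Prop)
      [DecidablePred D], (∀ v, D v ↔ CentredAt (τ'.comp (g : K' →+* K')) v s) →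
        c s = ∑ v ∈ S, if D v then v.ord f' else 0 := by
    intro g
    refine exists_div (τ'.comp (g : K' →+* K')) (fun z => ?_) hf'0 hS
    rw [RingHom.comp_apply, ← hτz]
    congr 1
    rw [IsScalarTower.algebraMap_apply ℂ B K']
    exact g.commutes _
  choose c hcR hc using hex
  have hfinal : N.toNat • pre B K' σ = ∑ g, c g := by
    ext s
    rw [Finsupp.smul_apply, pre_apply, Finset.sum_apply']
    have h1 : ∀ g : K' ≃ₐ[B] K', c g s = ∑ w ∈ S,
        if CentredAt (τ'.comp (g : K' →+* K')) w s then w.ord f' else 0 := fun g =>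
      hc g s (fun w => CentredAt (τ'.comp (g : K' →+* K')) w s) (fun w => Iff.rfl)
    rw [Finset.sum_congr rfl fun g _ => h1 g, Finset.sum_comm]
    by_cases hs : restr B Ω s = σ
    · rw [if_pos hs]
      have h2 : ∀ w ∈ S, (∑ g : K' ≃ₐ[B] K',
          if CentredAt (τ'.comp (g : K' →+* K')) w s then w.ord f' else 0) =
            if (∃ e, Over w v0 e) then w.ord f' else 0 := by
        intro w hw
        by_cases h3 : ∃ e, Over w v0 e
        · rw [if_pos h3]
          obtain ⟨g, hg, hu⟩ := hup w h3 s hs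
          rw [Finset.sum_eq_single g]
          · rw [if_pos hg]
          · intro g' _ hg'
            rw [if_neg fun h => hg' (hu g' h)]
          · intro h
            exact absurd (Finset.mem_univ g) h
        · rw [if_neg h3]
          refine Finset.sum_eq_zero fun g _ => ?_
          rw [if_neg fun h => h3 (hdown g w s hw h).2]
      rw [Finset.sum_congr rfl h2, ← Finset.sum_filter, ← hN, nsmul_eq_mul, mul_one]
      exact Int.toNat_of_nonneg hN0.le
    · rw [if_neg hs, smul_zero]
      symm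
      refine Finset.sum_eq_zero fun w hw => Finset.sum_eq_zero fun g _ => ?_
      rw [if_neg fun h => hs (hdown g w s hw h).1]
  rw [hfinal]
  exact sum_mem fun g _ => hcR g

/-- The inverse image of a point which is the divisor of a function on a curve. -/
theorem pull_mem {K : Type} [Field K] [Algebra ℂ K] [Algebra B K]
    [IsScalarTower ℂ B K] [FiniteDimensional B K] (τ : B →+* M)
    (hτ : ∀ z : ℂ, τ (algebraMap ℂ B z) = algebraMap Ω M (algebraMap ℂ Ω z)) (σ : B →ₐ[ℂ] Ω)
    (v0 : Place Ω M) (hv0 : CentredAt τ v0 σ) (f : M) (hf0 : f ≠ 0) (hf : 0 < v0.ord f)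
    (hng : ∀ v : Place Ω M, v ≠ v0 → v.ord f ≠ 0 → ∀ s : B →ₐ[ℂ] Ω, ¬ CentredAt τ v s) :
    ∃ N : ℕ, 0 < N ∧ N • pre B K σ ∈ Rat K Ω := by
  classical
  have hcB : CharZero B := charZero_of_injective_algebraMap (algebraMap ℂ B).injective
  obtain ⟨K', c1, c2, c3, c4, c5, c6⟩ : ∃ (K' : Type) (_ : Field K') (_ : Algebra B K')
      (_ : Algebra K K') (_ : IsScalarTower B K K'), FiniteDimensional B K' ∧ IsGalois B K' := by
    refine ⟨IntermediateField.normalClosure B K (AlgebraicClosure K), inferInstance, inferInstance,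
      inferInstance, inferInstance, inferInstance, ?_⟩
    have h1 : Normal B (IntermediateField.normalClosure B K (AlgebraicClosure K)) := inferInstance
    exact ⟨⟩
  let d1 : Algebra ℂ K' := ((algebraMap B K').comp (algebraMap ℂ B)).toAlgebra
  have d2 : IsScalarTower ℂ B K' := IsScalarTower.of_algebraMap_eq fun z => rfl
  have d3 : IsScalarTower ℂ K K' := IsScalarTower.of_algebraMap_eq fun z => by
    rw [IsScalarTower.algebraMap_apply ℂ B K, ← IsScalarTower.algebraMap_apply B K K']
    rfl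
  have d4 : FiniteDimensional K K' := FiniteDimensional.right B K K'
  obtain ⟨N, hN, hmem⟩ := pull_gal (K' := K') τ hτ σ v0 hv0 f hf0 hf hng
  refine ⟨N * Module.finrank K K', Nat.mul_pos hN Module.finrank_pos, ?_⟩
  have h1 := rat_push (K := K) hmem
  have h2 : (N • pre B K' σ).mapDomain (restr K Ω) = (N * Module.finrank K K') • pre B K σ := by
    have h3 : (pre B K' σ).mapDomain (restr K Ω) = Module.finrank K K' • pre B K σ := by
      have h4 : fib B K' σ = (fib B K σ).biUnion fun s => fib K K' s := by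
        ext s
        rw [Finset.mem_biUnion, mem_fib]
        constructor
        · intro h
          refine ⟨restr K Ω s, mem_fib.2 ?_, mem_fib.2 rfl⟩
          rw [← h]
          ext b
          change s (algebraMap K K' (algebraMap B K b)) = s (algebraMap B K' b)
          rw [← IsScalarTower.algebraMap_apply B K K']
        · rintro ⟨s', h5, h6⟩
          rw [mem_fib] at h5 h6
          rw [← h5, ← h6]
          ext b
          change s (algebraMap B K' b) = s (algebraMap K K' (algebraMap B K b))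
          rw [← IsScalarTower.algebraMap_apply B K K']
      have h5 : ∀ s s' : K' →ₐ[ℂ] Ω, True := fun _ _ => trivial
      unfold pre
      rw [h4, Finset.sum_biUnion, Finsupp.mapDomain_finset_sum, Finset.smul_sum]
      · refine Finset.sum_congr rfl fun s _ => ?_
        rw [Finsupp.mapDomain_finset_sum]
        have h6 : ∀ s' ∈ fib K K' s, Finsupp.mapDomain (restr K Ω) (Finsupp.single s' (1 : ℤ)) =
            Finsupp.single s 1 := by
          intro s' hs'
          rw [Finsupp.mapDomain_single, mem_fib.1 hs']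
        rw [Finset.sum_congr rfl h6, Finset.sum_const, card_fib]
      · intro s _ s' _ hss
        rw [Function.onFun, Finset.disjoint_left]
        intro s'' h6 h7
        rw [mem_fib] at h6 h7
        exact hss (h6.symm.trans h7)
    rw [Finsupp.mapDomain_smul, h3, mul_smul]
  rwa [h2] at h1

end

end Pool.Agent.Z15
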