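import Mathlib
import Pool.Agent.Helper273.Gen.P_common_zero

/-!
Rational curves on double coverings.
-/

set_option autoImplicit false
set_option linter.all false

open Polynomial

namespace Pool.Agent.Z15

/-- the value of `F` at the point `(t, x)` -/
noncomputable def evF {n : ℕ} (F : (MvPolynomial (Fin n) ℂ)[X]) {A : Type} [CommRing A]
    [Algebra ℂ A] (t : Fin n → A) (x : A) : A :=
  F.eval₂ (MvPolynomial.aeval t : MvPolynomial (Fin n) ℂ →ₐ[ℂ] A).toRingHom x

theorem evF_map {n : ℕ} (F : (MvPolynomial (Fin n) ℂ)[X]) {A A' : Type} [CommRing A]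
    [Algebra ℂ A] [CommRing A'] [Algebra ℂ A'] (φ : A →ₐ[ℂ] A') (t : Fin n → A) (x : A) :
    φ (evF F t x) = evF F (fun i => φ (t i)) (φ x) := by
  unfold evF
  have h1 := Polynomial.hom_eval₂ F (MvPolynomial.aeval t : MvPolynomial (Fin n) ℂ →ₐ[ℂ] A).toRingHom
    φ.toRingHom x
  refine h1.trans ?_
  have h2 : φ.toRingHom.comp (MvPolynomial.aeval t : MvPolynomial (Fin n) ℂ →ₐ[ℂ] A).toRingHom =
      (MvPolynomial.aeval (fun i => φ (t i)) : MvPolynomial (Fin n) ℂ →ₐ[ℂ] A').toRingHom := by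
    apply MvPolynomial.ringHom_ext
    · intro z
      simp
    · intro i
      simp
  rw [h2]
  rfl

/-- common zeros of homogeneous polynomials -/
theorem common_zero' {L I : Type} [Field L] [IsAlgClosed L] [Fintype I] {q : ℕ}
    (hq : q < Fintype.card I) (F : Fin q → MvPolynomial I L) (e : Fin q → ℕ) (he : ∀ i, 0 < e i)
    (hF : ∀ i, (F i).IsHomogeneous (e i)) :
    ∃ c : I → L, c ≠ 0 ∧ ∀ i, MvPolynomial.eval c (F i) = 0 := by
  let ε := Fintype.equivFin I
  obtain ⟨c, hc, hc'⟩ := Pool.Agent.Helper273.Sup.common_zero hq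
    (fun i => MvPolynomial.rename ε (F i)) e he
    (fun i => (hF i).rename_isHomogeneous)
  refine ⟨c ∘ ε, ?_, fun i => ?_⟩
  · intro h
    apply hc
    funext j
    have h1 := congrFun h (ε.symm j)
    simpa using h1
  · have h1 := hc' i
    rwa [MvPolynomial.eval_rename] at h1

section

variable {I Ω : Type} [Field Ω] [Algebra ℂ Ω]

/-- polynomials in `s` whose coefficients of `s ^ r` are homogeneous of degree `r` -/
noncomputable def gradedAlg (I Ω : Type) [Field Ω] [Algebra ℂ Ω] :
    Subalgebra ℂ (MvPolynomial I Ω)[X] where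
  carrier := {p | ∀ r, (p.coeff r).IsHomogeneous r}
  mul_mem' := by
    intro p q hp hq r
    rw [coeff_mul]
    refine MvPolynomial.IsHomogeneous.sum _ _ _ fun ij hij => ?_
    rw [← Finset.HasAntidiagonal.mem_antidiagonal.1 hij]
    exact (hp _).mul (hq _)
  add_mem' := by
    intro p q hp hq r
    rw [coeff_add]
    exact (hp r).add (hq r)
  algebraMap_mem' := by
    intro z r
    have h1 : algebraMap ℂ (MvPolynomial I Ω)[X] z = C (MvPolynomial.C (algebraMap ℂ Ω z)) := rfl
    rw [h1, coeff_C]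
    split_ifs with h
    · rw [h]
      exact MvPolynomial.isHomogeneous_C _ _
    · exact MvPolynomial.isHomogeneous_zero _ _ _

theorem mem_graded {p : (MvPolynomial I Ω)[X]} :
    p ∈ gradedAlg I Ω ↔ ∀ r, (p.coeff r).IsHomogeneous r := Iff.rfl

theorem graded_C (a : Ω) : (C (MvPolynomial.C a) : (MvPolynomial I Ω)[X]) ∈ gradedAlg I Ω := by
  intro r
  rw [coeff_C]
  split_ifs with h
  · rw [h]
    exact MvPolynomial.isHomogeneous_C _ _
  · exact MvPolynomial.isHomogeneous_zero _ _ _

theorem graded_X (i : I) (r : ℕ) :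
    (C (MvPolynomial.X i ^ r) * X ^ r : (MvPolynomial I Ω)[X]) ∈ gradedAlg I Ω := by
  intro k
  rw [coeff_C_mul_X_pow]
  split_ifs with h
  · rw [h]
    exact MvPolynomial.isHomogeneous_X_pow _ _
  · exact MvPolynomial.isHomogeneous_zero _ _ _

end

theorem evF_natDegree {n m N : ℕ} (F : (MvPolynomial (Fin n) ℂ)[X])
    (hdeg : ∀ j, F.coeff j ≠ 0 → (F.coeff j).totalDegree + m * j ≤ N) {Ω : Type} [Field Ω]
    [Algebra ℂ Ω] (t : Fin n → (Polynomial Ω)) (x : (Polynomial Ω)) (ht : ∀ i, (t i).natDegree ≤ 1)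
    (hx : x.natDegree ≤ m) : (evF F t x).natDegree ≤ N := by
  unfold evF
  rw [eval₂_eq_sum_range]
  refine natDegree_sum_le_of_forall_le _ _ fun j hj => ?_
  by_cases h0 : F.coeff j = 0
  · rw [h0, map_zero, zero_mul, natDegree_zero]
    exact Nat.zero_le _
  refine natDegree_mul_le.trans ?_
  have h1 : ((MvPolynomial.aeval t : MvPolynomial (Fin n) ℂ →ₐ[ℂ] (Polynomial Ω)).toRingHom
      (F.coeff j)).natDegree ≤ (F.coeff j).totalDegree := by
    have h2 : (MvPolynomial.aeval t : MvPolynomial (Fin n) ℂ →ₐ[ℂ] (Polynomial Ω)).toRingHom (F.coeff j) =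
        MvPolynomial.aeval t (MvPolynomial.map (algebraMap ℂ Ω) (F.coeff j)) := by
      change MvPolynomial.aeval t (F.coeff j) = _
      rw [MvPolynomial.aeval_map_algebraMap]
    rw [h2]
    have h3 : (MvPolynomial.map (algebraMap ℂ Ω) (F.coeff j)).totalDegree ≤
        (F.coeff j).totalDegree :=
      Finset.sup_mono (MvPolynomial.support_map_subset _ _)
    exact (MvPolynomial.aeval_natDegree_le (m := (F.coeff j).totalDegree) (n := 1) _
      h3 t ht).trans (by omega)
  have h2 : (x ^ j).natDegree ≤ j * m := natDegree_pow_le_of_le j hx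
  have h3 := hdeg j h0
  nlinarith [h1, h2, h3]

/-- a separable polynomial of degree at least three takes no values of the form `q g ^ 2` on
nonconstant polynomials, with `q` of degree at most two -/
theorem const_of_sq {Ω : Type} [Field Ω] [CharZero Ω] {P x q g : (Polynomial Ω)} (hP : P.Separable)
    (h3 : 3 ≤ P.natDegree) (hq : q.natDegree ≤ 2) (h : P.comp x = q * g ^ 2) :
    x.natDegree = 0 := by
  by_contra hx
  have h1 : IsCoprime g ((derivative P).comp x) := by
    obtain ⟨a, b, hab⟩ := hP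
    have h2 : (a.comp x) * (P.comp x) + (b.comp x) * ((derivative P).comp x) = 1 := by
      rw [← mul_comp, ← mul_comp, ← add_comp, hab, one_comp]
    refine ⟨a.comp x * q * g, b.comp x, ?_⟩
    rw [h] at h2
    rw [← h2]
    ring
  have h2 : derivative x * (derivative P).comp x = g * (derivative q * g + 2 * q * derivative g) := by
    have h4 := congrArg derivative h
    rw [derivative_comp, derivative_mul, derivative_pow] at h4
    rw [h4]
    have h5 : (C ((2 : ℕ) : Ω) : Polynomial Ω) = 2 := by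
      rw [Nat.cast_ofNat]
      exact map_ofNat C 2
    rw [h5]
    ring
  have h4 : g ∣ derivative x := by
    refine h1.dvd_of_dvd_mul_right ?_
    rw [h2]
    exact Dvd.intro _ rfl
  have h5 : derivative x ≠ 0 := by
    intro h0
    exact hx (natDegree_eq_zero_of_derivative_eq_zero h0)
  have h6 : g.natDegree ≤ x.natDegree - 1 :=
    (natDegree_le_of_dvd h4 h5).trans (natDegree_derivative_le x)
  have h7 := congrArg natDegree h
  rw [natDegree_comp] at h7
  have h8 : (q * g ^ 2).natDegree ≤ 2 + 2 * g.natDegree := by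
    refine natDegree_mul_le.trans ?_
    have := natDegree_pow_le (p := g) (n := 2)
    omega
  have h9 : 3 * x.natDegree ≤ P.natDegree * x.natDegree := Nat.mul_le_mul_right _ h3
  omega

/-- **Rational curves through a general point.** -/
theorem exists_par {n m : ℕ} (hn : 0 < n) (F : (MvPolynomial (Fin n) ℂ)[X])
    (hdeg : ∀ j, F.coeff j ≠ 0 → (F.coeff j).totalDegree + m * j ≤ 2 * (n + m))
    {Ω : Type} [Field Ω] [Algebra ℂ Ω] [IsAlgClosed Ω] (T : Fin n → Ω) (X0 Y0 : Ω) (hY : Y0 ≠ 0)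
    (hF : Y0 ^ 2 = evF F T X0)
    (hsep : (F.map (MvPolynomial.aeval T : MvPolynomial (Fin n) ℂ →ₐ[ℂ] Ω).toRingHom).Separable)
    (h3 : 3 ≤ (F.map (MvPolynomial.aeval T : MvPolynomial (Fin n) ℂ →ₐ[ℂ] Ω).toRingHom).natDegree) :
    ∃ (d : Fin n → Ω) (x : Polynomial Ω) (q1 q2 : Ω) (g : Polynomial Ω), d ≠ 0 ∧ x.eval 0 = X0 ∧
      g.eval 0 = Y0 ∧ evF F (fun i => C (T i) + C (d i) * X) x =
        (1 + C q1 * X + C q2 * X ^ 2) * g ^ 2 := by
  classical
  have hcΩ : CharZero Ω := charZero_of_injective_algebraMap (algebraMap ℂ Ω).injective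
  let I := Fin n ⊕ Fin m ⊕ Fin 2 ⊕ Fin (n + m - 1)
  let R := MvPolynomial I Ω
  let id' : Fin n → I := Sum.inl
  let ix : Fin m → I := fun j => Sum.inr (Sum.inl j)
  let iq : Fin 2 → I := fun j => Sum.inr (Sum.inr (Sum.inl j))
  let ig : Fin (n + m - 1) → I := fun j => Sum.inr (Sum.inr (Sum.inr j))
  let tI : Fin n → gradedAlg I Ω := fun i =>
    ⟨C (MvPolynomial.C (T i)), graded_C _⟩ + ⟨_, graded_X (id' i) 1⟩
  let xI : gradedAlg I Ω := ⟨C (MvPolynomial.C X0), graded_C _⟩ +
    ∑ j : Fin m, ⟨_, graded_X (ix j) (j + 1)⟩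
  let qI : gradedAlg I Ω := 1 + ⟨_, graded_X (iq 0) 1⟩ + ⟨_, graded_X (iq 1) 2⟩
  let gI : gradedAlg I Ω := ⟨C (MvPolynomial.C Y0), graded_C _⟩ +
    ∑ j : Fin (n + m - 1), ⟨_, graded_X (ig j) (j + 1)⟩
  obtain ⟨E, hE⟩ : ∃ E : gradedAlg I Ω, E = evF F tI xI - qI * gI ^ 2 := ⟨_, rfl⟩
  have hcard : Fintype.card I = 2 * (n + m) + 1 := by
    simp only [I, Fintype.card_sum, Fintype.card_fin]
    omega
  obtain ⟨v, hv, hv0⟩ := common_zero' (L := Ω) (I := I) (q := 2 * (n + m)) (by omega)
    (fun r => (E : (MvPolynomial I Ω)[X]).coeff (r + 1)) (fun r => (r : ℕ) + 1)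
    (fun r => Nat.succ_pos _) (fun r => E.2 _)
  -- the specialisation
  let φ0 : MvPolynomial I Ω →ₐ[ℂ] Ω := (MvPolynomial.aeval v : MvPolynomial I Ω →ₐ[Ω] Ω).restrictScalars ℂ
  let φ : (MvPolynomial I Ω)[X] →ₐ[ℂ] Polynomial Ω := Polynomial.mapAlgHom φ0
  let ψ : gradedAlg I Ω →ₐ[ℂ] Polynomial Ω := φ.comp (gradedAlg I Ω).val
  have hφ0C : ∀ a : Ω, φ0 (MvPolynomial.C a) = a := fun a => by
    change MvPolynomial.aeval v (MvPolynomial.C a) = a
    rw [MvPolynomial.aeval_C]
    rfl
  have hφ0X : ∀ i : I, φ0 (MvPolynomial.X i) = v i := fun i => by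
    change MvPolynomial.aeval v (MvPolynomial.X i) = v i
    rw [MvPolynomial.aeval_X]
  have hψC : ∀ a : Ω, ψ ⟨C (MvPolynomial.C a), graded_C a⟩ = C a := fun a => by
    change Polynomial.map φ0.toRingHom (C (MvPolynomial.C a)) = C a
    rw [Polynomial.map_C]
    exact congrArg C (hφ0C a)
  have hψX : ∀ (i : I) (r : ℕ), ψ ⟨_, graded_X i r⟩ = C (v i ^ r) * X ^ r := fun i r => by
    change Polynomial.map φ0.toRingHom (C (MvPolynomial.X i ^ r) * X ^ r) = _
    rw [Polynomial.map_mul, Polynomial.map_C, Polynomial.map_pow, Polynomial.map_X]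
    congr 2
    change φ0 (MvPolynomial.X i ^ r) = _
    rw [map_pow, hφ0X]
  obtain ⟨x, hx⟩ : ∃ x : Polynomial Ω, x = C X0 + ∑ j : Fin m, C (v (ix j) ^ ((j : ℕ) + 1)) *
    X ^ ((j : ℕ) + 1) := ⟨_, rfl⟩
  obtain ⟨g, hg⟩ : ∃ g : Polynomial Ω, g = C Y0 + ∑ j : Fin (n + m - 1),
    C (v (ig j) ^ ((j : ℕ) + 1)) * X ^ ((j : ℕ) + 1) := ⟨_, rfl⟩
  obtain ⟨q, hq⟩ : ∃ q : Polynomial Ω, q = 1 + C (v (iq 0)) * X + C (v (iq 1) ^ 2) * X ^ 2 :=
    ⟨_, rfl⟩
  have h1 : ∀ i, ψ (tI i) = C (T i) + C (v (id' i)) * X := by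
    intro i
    simp only [tI]
    rw [map_add, hψC, hψX, pow_one, pow_one]
  have h2 : ψ xI = x := by
    simp only [xI]
    rw [map_add, hψC, map_sum, hx]
    congr 1
    exact Finset.sum_congr rfl fun j _ => hψX _ _
  have h4 : ψ gI = g := by
    simp only [gI]
    rw [map_add, hψC, map_sum, hg]
    congr 1
    exact Finset.sum_congr rfl fun j _ => hψX _ _
  have h5 : ψ qI = q := by
    simp only [qI]
    rw [map_add, map_add, map_one, hψX, hψX, hq, pow_one, pow_one]
  have h6 : ψ E = evF F (fun i => C (T i) + C (v (id' i)) * X) x - q * g ^ 2 := by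
    rw [hE]
    refine (map_sub ψ (evF F tI xI) (qI * gI ^ 2)).trans ?_
    rw [map_mul, map_pow, h4, h5]
    have h8 : ψ (evF F tI xI) = evF F (fun i => C (T i) + C (v (id' i)) * X) x := by
      refine (evF_map F ψ tI xI).trans ?_
      rw [h2]
      congr 1
      funext i
      exact h1 i
    exact congrArg (fun p => p - q * g ^ 2) h8
  have hxd : x.natDegree ≤ m := by
    rw [hx]
    refine natDegree_add_le_of_degree_le (by simp) ?_
    refine natDegree_sum_le_of_forall_le _ _ fun j _ => ?_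
    exact (natDegree_C_mul_X_pow_le _ _).trans (by have := j.2; omega)
  have hgd : g.natDegree ≤ n + m - 1 := by
    rw [hg]
    refine natDegree_add_le_of_degree_le (by simp) ?_
    refine natDegree_sum_le_of_forall_le _ _ fun j _ => ?_
    exact (natDegree_C_mul_X_pow_le _ _).trans (by have := j.2; omega)
  have hqd : q.natDegree ≤ 2 := by
    rw [hq]
    refine natDegree_add_le_of_degree_le (natDegree_add_le_of_degree_le (by simp) ?_) ?_
    · exact ((natDegree_C_mul_le _ _).trans natDegree_X_le).trans (by omega)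
    · exact natDegree_C_mul_X_pow_le _ _
  have hx0 : x.eval 0 = X0 := by
    rw [hx, eval_add, eval_C, eval_finset_sum]
    simp
  have hg0 : g.eval 0 = Y0 := by
    rw [hg, eval_add, eval_C, eval_finset_sum]
    simp
  have hq0 : q.eval 0 = 1 := by
    rw [hq]
    simp
  have hev0 : (evF F (fun i => C (T i) + C (v (id' i)) * X) x).eval 0 = evF F T X0 := by
    let e0 : Polynomial Ω →ₐ[ℂ] Ω := (Polynomial.aeval (0 : Ω)).restrictScalars ℂ
    have h7 : ∀ p : Polynomial Ω, e0 p = p.eval 0 := fun p => by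
      change Polynomial.aeval (0 : Ω) p = _
      rw [Polynomial.coe_aeval_eq_eval]
    rw [← h7, evF_map, h7, hx0]
    congr 1
    funext i
    rw [h7]
    simp
  have heq : evF F (fun i => C (T i) + C (v (id' i)) * X) x = q * g ^ 2 := by
    rw [← sub_eq_zero]
    ext r
    rw [coeff_zero]
    rcases Nat.eq_zero_or_pos r with rfl | hr
    · rw [coeff_zero_eq_eval_zero, eval_sub, hev0, eval_mul, eval_pow, hq0, hg0, one_mul, hF,
        sub_self]
    · by_cases hr2 : r ≤ 2 * (n + m)
      · have h7 := hv0 ⟨r - 1, by omega⟩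
        have h8 : (ψ E).coeff r = φ0 ((E : (MvPolynomial I Ω)[X]).coeff r) := by
          change (Polynomial.map φ0.toRingHom (E : (MvPolynomial I Ω)[X])).coeff r = _
          rw [Polynomial.coeff_map]
          rfl
        rw [← h6, h8]
        have h9 : r - 1 + 1 = r := by omega
        simp only [h9] at h7
        exact h7
      · refine coeff_eq_zero_of_natDegree_lt (lt_of_le_of_lt (natDegree_sub_le _ _) ?_)
        rw [max_lt_iff]
        constructor
        · refine lt_of_le_of_lt (evF_natDegree F hdeg _ x (fun i => ?_) hxd) (by omega)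
          refine natDegree_add_le_of_degree_le (by simp) ((natDegree_C_mul_le _ _).trans natDegree_X_le)
        · refine lt_of_le_of_lt natDegree_mul_le ?_
          have h7 := natDegree_pow_le_of_le 2 hgd
          omega
  refine ⟨fun i => v (id' i), x, v (iq 0), v (iq 1) ^ 2, g, ?_, hx0, hg0, ?_⟩
  swap
  · rw [heq, hq]
  -- the direction is not zero
  intro hd
  have hd' : ∀ i, v (id' i) = 0 := fun i => congrFun hd i
  have h7 : (F.map (MvPolynomial.aeval T : MvPolynomial (Fin n) ℂ →ₐ[ℂ] Ω).toRingHom).comp x =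
      q * g ^ 2 := by
    rw [← heq]
    unfold evF
    rw [comp, eval₂_map]
    congr 1
    apply MvPolynomial.ringHom_ext
    · intro z
      simp
    · intro i
      simp [hd']
  have h8 := const_of_sq hsep h3 hqd h7
  have h9 : x = C X0 := by
    rw [eq_C_of_natDegree_eq_zero h8, coeff_zero_eq_eval_zero, hx0]
  rw [h9, comp_C] at h7
  have h10 : (F.map (MvPolynomial.aeval T : MvPolynomial (Fin n) ℂ →ₐ[ℂ] Ω).toRingHom).eval X0 =
      Y0 ^ 2 := by
    rw [hF]
    unfold evF
    rw [eval_map]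
  rw [h10] at h7
  have hq00 : q ≠ 0 := by
    rintro rfl
    simp at hq0
  have hg00 : g ≠ 0 := by
    rintro rfl
    rw [eval_zero] at hg0
    exact hY hg0.symm
  have h11 := congrArg natDegree h7
  rw [natDegree_C, natDegree_mul hq00 (pow_ne_zero 2 hg00), natDegree_pow] at h11
  have h12 : g = C Y0 := by
    rw [eq_C_of_natDegree_eq_zero (by omega : g.natDegree = 0), coeff_zero_eq_eval_zero, hg0]
  have h13 : q = 1 := by
    rw [eq_C_of_natDegree_eq_zero (by omega : q.natDegree = 0), coeff_zero_eq_eval_zero, hq0, C_1]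
  -- all the unknowns are zero
  have hcoef : ∀ (N : ℕ) (w : Fin N → Ω) (a : Ω), C a + ∑ j : Fin N, C (w j ^ ((j : ℕ) + 1)) *
      X ^ ((j : ℕ) + 1) = C a → ∀ j, w j = 0 := by
    intro N w a h j
    rw [add_eq_left] at h
    have h1 := congrArg (fun p : Polynomial Ω => p.coeff ((j : ℕ) + 1)) h
    simp only [finset_sum_coeff, coeff_C_mul_X_pow, coeff_zero] at h1
    rw [Finset.sum_eq_single j] at h1
    · rw [if_pos rfl] at h1
      exact pow_eq_zero_iff (Nat.succ_ne_zero _) |>.1 h1
    · intro b _ hb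
      rw [if_neg]
      intro h2
      apply hb
      ext
      omega
    · intro h2
      exact absurd (Finset.mem_univ j) h2
  apply hv
  funext i
  rcases i with i | i | i | i
  · exact hd' i
  · exact hcoef m (fun j => v (ix j)) X0 (by rw [← hx]; exact h9) i
  · rw [hq] at h13
    have h14 := congrArg (fun p : Polynomial Ω => p.coeff 1) h13
    have h15 := congrArg (fun p : Polynomial Ω => p.coeff 2) h13
    simp only [coeff_add, coeff_one, coeff_C_mul, coeff_X_pow, coeff_X] at h14 h15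
    norm_num at h14 h15
    fin_cases i
    · exact h14
    · exact h15
  · exact hcoef _ (fun j => v (ig j)) Y0 (by rw [← hg]; exact h12) i

end Pool.Agent.Z15
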