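import Pool.Agent.Z15.B
import Pool.Agent.Z15.C

/-!
The projective line, and a rational curve through a general point of a double covering.
-/

set_option autoImplicit false
set_option linter.all false

open FF Polynomial Pool.Agent.W603.LV Pool.Agent.W602.GT Pool.Agent.N162.BC

namespace Pool.Agent.Z15

/-- the projective line -/
theorem exists_line (Ω : Type) [Field Ω] [CharZero Ω] : ∃ (M : Type) (_ : Field M)
    (_ : Algebra Ω M) (_ : IsFF Ω M) (z : M), Transcendental Ω z ∧
      ∀ a : Ω, ∃ v : Place Ω M, v.ord (z - algebraMap Ω M a) = 1 ∧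
        ∀ w : Place Ω M, 0 < w.ord (z - algebraMap Ω M a) → w = v := by
  have htr : Transcendental Ω (RatFunc.X : RatFunc Ω) := RatFunc.transcendental_X
  have hadj : ∀ a : Ω, IntermediateField.adjoin Ω {(RatFunc.X : RatFunc Ω) - algebraMap Ω (RatFunc Ω) a} = ⊤ := by
    intro a
    rw [eq_top_iff, ← RatFunc.adjoin_X]
    rw [IntermediateField.adjoin_simple_le_iff]
    have h2 := add_mem (IntermediateField.mem_adjoin_simple_self Ω
      ((RatFunc.X : RatFunc Ω) - algebraMap Ω (RatFunc Ω) a)) (IntermediateField.algebraMap_mem _ a)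
    rwa [sub_add_cancel] at h2
  have htra : ∀ a : Ω, Transcendental Ω ((RatFunc.X : RatFunc Ω) - algebraMap Ω (RatFunc Ω) a) := by
    intro a h
    apply htr
    have h1 : (RatFunc.X : RatFunc Ω) = (RatFunc.X - algebraMap Ω (RatFunc Ω) a) +
        algebraMap Ω (RatFunc Ω) a := by ring
    rw [h1]
    exact h.add (isAlgebraic_algebraMap _)
  have hfr : ∀ a : Ω, Module.finrank (IntermediateField.adjoin Ω
      {(RatFunc.X : RatFunc Ω) - algebraMap Ω (RatFunc Ω) a}) (RatFunc Ω) = 1 := by
    intro a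
    rw [hadj a]
    exact IntermediateField.finrank_top
  have hFF : IsFF Ω (RatFunc Ω) := by
    refine IsFF.of_finite (htra 0) ?_
    exact Module.finite_of_finrank_pos (by rw [hfr 0]; exact one_pos)
  refine ⟨RatFunc Ω, inferInstance, inferInstance, hFF, RatFunc.X, htr, fun a => ?_⟩
  obtain ⟨S, hS, hdeg, hsum⟩ := zeros (htra a)
  rw [hfr a] at hsum
  have h1 : ∀ w ∈ S, 1 ≤ (w.ord (RatFunc.X - algebraMap Ω (RatFunc Ω) a)).toNat * w.deg := by
    intro w hw
    have h2 := (hS w).1 hw
    have h3 := hdeg w hw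
    have h4 : 0 < (w.ord (RatFunc.X - algebraMap Ω (RatFunc Ω) a)).toNat := by omega
    exact Nat.mul_pos h4 h3
  have hcard : S.card ≤ 1 := by
    have h2 := Finset.card_nsmul_le_sum S _ 1 h1
    rw [hsum, smul_eq_mul, mul_one] at h2
    exact h2
  have hne : S.Nonempty := by
    rw [Finset.nonempty_iff_ne_empty]
    rintro rfl
    simp at hsum
  have h5 : S.card = 1 := le_antisymm hcard (Finset.card_pos.2 hne)
  obtain ⟨v, rfl⟩ := Finset.card_eq_one.1 h5
  rw [Finset.sum_singleton] at hsum
  have h6 := (hS v).1 (Finset.mem_singleton_self v)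
  have h7 : (v.ord (RatFunc.X - algebraMap Ω (RatFunc Ω) a)).toNat = 1 :=
    Nat.eq_one_of_mul_eq_one_right hsum
  refine ⟨v, by omega, fun w hw => ?_⟩
  exact Finset.mem_singleton.1 ((hS w).2 hw)

section

variable {Ω M : Type} [Field Ω] [Field M] [Algebra Ω M]

/-- `f` has the value `c` at `v` -/
def Val (v : Place Ω M) (f : M) (c : Ω) : Prop := Ge v 1 (f - algebraMap Ω M c)

variable {v : Place Ω M} {f g : M} {a b : Ω}

theorem Val.const (a : Ω) : Val v (algebraMap Ω M a) a := by
  unfold Val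
  rw [sub_self]
  exact Ge.zero

theorem Val.add (hf : Val v f a) (hg : Val v g b) : Val v (f + g) (a + b) := by
  have h := Ge.add hf hg
  unfold Val
  rw [map_add]
  have e : f + g - (algebraMap Ω M a + algebraMap Ω M b) =
      f - algebraMap Ω M a + (g - algebraMap Ω M b) := by ring
  rwa [e]

theorem Val.neg (hf : Val v f a) : Val v (-f) (-a) := by
  have h := Ge.neg hf
  unfold Val
  rw [map_neg]
  have e : -f - -algebraMap Ω M a = -(f - algebraMap Ω M a) := by ring
  rwa [e]

theorem Val.sub (hf : Val v f a) (hg : Val v g b) : Val v (f - g) (a - b) := by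
  rw [sub_eq_add_neg, sub_eq_add_neg]
  exact hf.add hg.neg

theorem Val.reg (hf : Val v f a) : Ge v 0 f := by
  have h := (hf.mono (by norm_num : (0 : ℤ) ≤ 1)).add (Ge.const (P := v) a)
  rwa [sub_add_cancel] at h

theorem Val.mul (hf : Val v f a) (hg : Val v g b) : Val v (f * g) (a * b) := by
  have h1 := Ge.mul hf hg.reg
  have h2 := Ge.mul (Ge.const (P := v) a) hg
  rw [add_zero] at h1
  rw [zero_add] at h2
  unfold Val
  rw [map_mul]
  have e : f * g - algebraMap Ω M a * algebraMap Ω M b =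
      (f - algebraMap Ω M a) * g + algebraMap Ω M a * (g - algebraMap Ω M b) := by ring
  rw [e]
  exact h1.add h2

theorem Val.pow (hf : Val v f a) (n : ℕ) : Val v (f ^ n) (a ^ n) := by
  induction n with
  | zero =>
    rw [pow_zero, pow_zero]
    have h := Val.const (v := v) (1 : Ω)
    rwa [map_one] at h
  | succ n ih =>
    rw [pow_succ, pow_succ]
    exact ih.mul hf

theorem Val.unique (hf : Val v f a) (hf' : Val v f b) : a = b := by
  have h := Ge.sub hf' hf
  rw [sub_sub_sub_cancel_left, ← map_sub] at h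
  exact sub_eq_zero.1 (not_ge_const h)

theorem Val.ord (hf : Val v f a) (ha : a ≠ 0) : f ≠ 0 ∧ v.ord f = 0 := by
  have h0 : f ≠ 0 := by
    rintro rfl
    have h1 := Val.const (v := v) (0 : Ω)
    rw [map_zero] at h1
    exact ha (hf.unique h1)
  refine ⟨h0, le_antisymm ?_ (hf.reg.resolve_left h0)⟩
  by_contra hcon
  push Not at hcon
  have h1 : Val v f 0 := by
    unfold Val
    rw [map_zero, sub_zero]
    exact Or.inr (by omega)
  exact ha (hf.unique h1)

theorem Val.inv (hf : Val v f a) (ha : a ≠ 0) : Val v f⁻¹ a⁻¹ := by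
  obtain ⟨h0, h1⟩ := hf.ord ha
  have ha' : algebraMap Ω M a ≠ 0 := by simpa using ha
  unfold Val
  rw [map_inv₀]
  have e : f⁻¹ - (algebraMap Ω M a)⁻¹ =
      (f⁻¹ * (algebraMap Ω M a)⁻¹) * (-(f - algebraMap Ω M a)) := by
    field_simp
    ring
  rw [e]
  have h2 : Ge v 0 (f⁻¹ * (algebraMap Ω M a)⁻¹) := by
    right
    rw [v.ord_mul (inv_ne_zero h0) (inv_ne_zero ha'), v.ord_inv, v.ord_inv, h1, v.ord_const ha]
    norm_num
  have h3 := h2.mul (Ge.neg hf)
  rwa [zero_add] at h3

theorem Val.div (hf : Val v f a) (hg : Val v g b) (hb : b ≠ 0) : Val v (f / g) (a / b) := by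
  rw [div_eq_mul_inv, div_eq_mul_inv]
  exact hf.mul (hg.inv hb)

theorem Val.aeval (hf : Val v f a) (p : Polynomial Ω) : Val v (Polynomial.aeval f p) (p.eval a) := by
  induction p using Polynomial.induction_on' with
  | add p q hp hq =>
    rw [map_add, eval_add]
    exact hp.add hq
  | monomial n c =>
    rw [aeval_monomial, eval_monomial]
    exact (Val.const c).mul (hf.pow n)

end

/-- Parametrisation of a conic. -/
theorem exists_conic {Ω : Type} [Field Ω] [CharZero Ω] [IsAlgClosed Ω] (q1 q2 α : Ω) (hα : α ≠ 0) :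
    ∃ (M : Type) (_ : Field M) (_ : Algebra Ω M) (_ : IsFF Ω M) (s w : M) (v0 v1 : Place Ω M)
      (f : M), w ^ 2 = 1 + algebraMap Ω M q1 * s + algebraMap Ω M q2 * s ^ 2 ∧
        Val v0 s 0 ∧ Val v0 w 1 ∧ Val v1 s α ∧ f ≠ 0 ∧ 0 < v0.ord f ∧
          ∀ v : Place Ω M, v ≠ v0 → v.ord f ≠ 0 → v = v1 := by
  obtain ⟨M, c1, c2, c3, z, hz, hv⟩ := exists_line Ω
  obtain ⟨z0, z1, s, w, hz01, hw, hs⟩ : ∃ (z0 z1 : Ω) (s w : M), z0 ≠ z1 ∧
      w ^ 2 = 1 + algebraMap Ω M q1 * s + algebraMap Ω M q2 * s ^ 2 ∧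
        ∀ v : Place Ω M, (Val v z z0 → Val v s 0 ∧ Val v w 1) ∧ (Val v z z1 → Val v s α) := by
    by_cases hq : q1 ^ 2 = 4 * q2
    · refine ⟨0, α, z, 1 + algebraMap Ω M (q1 / 2) * z, hα.symm, ?_, fun v => ⟨fun h => ⟨h, ?_⟩,
        fun h => h⟩⟩
      · have h1 : q2 = (q1 / 2) ^ 2 := by
          rw [div_pow, hq]
          ring
        rw [h1, map_pow]
        have h2 : algebraMap Ω M q1 = 2 * algebraMap Ω M (q1 / 2) := by
          rw [← map_ofNat (algebraMap Ω M) 2, ← map_mul]
          congr 1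
          ring
        rw [h2]
        ring
      · have h1 := (Val.const (v := v) (1 : Ω)).add ((Val.const (v := v) (q1 / 2)).mul h)
        rw [map_one, mul_zero, add_zero] at h1
        exact h1
    · obtain ⟨z1, hz1⟩ : ∃ z1 : Ω, α * z1 ^ 2 + 2 * z1 - (α * q2 + q1) = 0 := by
        have h1 : (C α * X ^ 2 + C 2 * X + C (-(α * q2 + q1)) : Polynomial Ω).degree ≠ 0 := by
          rw [degree_quadratic hα]
          decide
        obtain ⟨z1, h2⟩ := IsAlgClosed.exists_root _ h1
        refine ⟨z1, ?_⟩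
        rw [IsRoot.def] at h2
        simp only [eval_add, eval_mul, eval_C, eval_pow, eval_X] at h2
        rw [← h2]
        ring
      have hden1 : z1 ^ 2 - q2 ≠ 0 := by
        intro h0
        apply hq
        have h2 : q1 = 2 * z1 := by
          linear_combination (-1 : Ω) * hz1 + α * h0
        rw [h2]
        linear_combination 4 * h0
      have hden0 : (q1 / 2) ^ 2 - q2 ≠ 0 := by
        intro h0
        apply hq
        linear_combination 4 * h0
      have hdz : z ^ 2 - algebraMap Ω M q2 ≠ 0 := by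
        intro h0
        have h1 : IsAlgebraic Ω (z ^ 2) := by
          rw [sub_eq_zero.1 h0]
          exact isAlgebraic_algebraMap q2
        exact hz (h1.of_pow (by norm_num))
      refine ⟨q1 / 2, z1, (algebraMap Ω M q1 - 2 * z) / (z ^ 2 - algebraMap Ω M q2),
        1 + z * ((algebraMap Ω M q1 - 2 * z) / (z ^ 2 - algebraMap Ω M q2)), ?_, ?_, fun v =>
          ⟨fun h => ?_, fun h => ?_⟩⟩
      · rintro rfl
        apply hden0
        have h2 : α * ((q1 / 2) ^ 2 - q2) = 0 := by
          linear_combination hz1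
        exact (mul_eq_zero.1 h2).resolve_left hα
      · field_simp
        ring
      · have h2 : Val v ((2 : M) * z) (2 * (q1 / 2)) := by
          have h3 := (Val.const (v := v) (2 : Ω)).mul h
          rwa [map_ofNat] at h3
        have h4 := ((Val.const (v := v) q1).sub h2).div ((h.pow 2).sub (Val.const (v := v) q2)) hden0
        have h5 : (q1 - 2 * (q1 / 2)) / ((q1 / 2) ^ 2 - q2) = 0 := by
          have : q1 - 2 * (q1 / 2) = 0 := by ring
          rw [this, zero_div]
        rw [h5] at h4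
        refine ⟨h4, ?_⟩
        have h6 := (Val.const (v := v) (1 : Ω)).add (h.mul h4)
        rw [map_one, mul_zero, add_zero] at h6
        exact h6
      · have h2 : Val v ((2 : M) * z) (2 * z1) := by
          have h3 := (Val.const (v := v) (2 : Ω)).mul h
          rwa [map_ofNat] at h3
        have h4 := ((Val.const (v := v) q1).sub h2).div ((h.pow 2).sub (Val.const (v := v) q2)) hden1
        have h5 : (q1 - 2 * z1) / (z1 ^ 2 - q2) = α := by
          rw [div_eq_iff hden1]
          linear_combination (-1 : Ω) * hz1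
        rwa [h5] at h4
  obtain ⟨v0, hv0, hv0'⟩ := hv z0
  obtain ⟨v1, hv1, hv1'⟩ := hv z1
  have hz00 : z - algebraMap Ω M z0 ≠ 0 := by
    intro h
    rw [h, v0.ord_zero] at hv0
    exact absurd hv0 (by norm_num)
  have hz10 : z - algebraMap Ω M z1 ≠ 0 := by
    intro h
    rw [h, v1.ord_zero] at hv1
    exact absurd hv1 (by norm_num)
  have hval0 : Val v0 z z0 := Or.inr hv0.ge
  have hval1 : Val v1 z z1 := Or.inr hv1.ge
  refine ⟨M, c1, c2, c3, s, w, v0, v1, (z - algebraMap Ω M z0) / (z - algebraMap Ω M z1), hw,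
    ((hs v0).1 hval0).1, ((hs v0).1 hval0).2, (hs v1).2 hval1, div_ne_zero hz00 hz10, ?_, ?_⟩
  · rw [v0.ord_div hz00 hz10, hv0]
    have h1 := (hval0.sub (Val.const (v := v0) z1)).ord (sub_ne_zero.2 hz01)
    rw [h1.2]
    norm_num
  · intro v hvne hvo
    rw [v.ord_div hz00 hz10] at hvo
    by_contra hne
    apply hvo
    have h0 : v.ord (z - algebraMap Ω M z0) ≤ 0 := by
      by_contra h
      push Not at h
      exact hvne (hv0' v h)
    have h1 : v.ord (z - algebraMap Ω M z1) ≤ 0 := by
      by_contra h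
      push Not at h
      exact hne (hv1' v h)
    have hc : algebraMap Ω M (z0 - z1) ≠ 0 := (_root_.map_ne_zero _).2 (sub_ne_zero.2 hz01)
    have hco : v.ord (algebraMap Ω M (z0 - z1)) = 0 := v.ord_const (sub_ne_zero.2 hz01)
    have e1 : z - algebraMap Ω M z1 = (z - algebraMap Ω M z0) + algebraMap Ω M (z0 - z1) := by
      rw [map_sub]
      ring
    have e2 : z - algebraMap Ω M z0 = (z - algebraMap Ω M z1) + -algebraMap Ω M (z0 - z1) := by
      rw [map_sub]
      ring
    rcases lt_or_eq_of_le h0 with h2 | h2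
    · have h3 := v.ord_add_eq hz00 hc (by rw [hco]; exact h2)
      rw [← e1] at h3
      rw [h3.2, sub_self]
    · rcases lt_or_eq_of_le h1 with h4 | h4
      · have h3 := v.ord_add_eq hz10 (neg_ne_zero.2 hc) (by rw [v.ord_neg, hco]; exact h4)
        rw [← e2] at h3
        rw [h3.2, sub_self]
      · rw [h2, h4, sub_self]

end Pool.Agent.Z15
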