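import Pool.Agent.N162.BC.Defs

/-!
Varieties which are fibred in curves over the affine space, in terms of function fields.

* `K` is the function field of the variety, and `t` are the coordinates on the base. The generic
  fibre is the curve with the function field `K` over `base t`.
* A differential `ω` on the generic fibre is given by the function `ω(D)`, where `D ≠ 0` is a fixed
  vertical vector field, i.e. a derivation of `K` over `base t`. The differential `θ dx` is given
  by the function `θ D(x)`.
-/

set_option autoImplicit false

open FF Polynomial

namespace Pool.Agent.Z15

section

variable {K : Type} [Field K] [Algebra ℂ K] {n : ℕ}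

/-- the function field of the base, the affine space with the coordinates `t` -/
noncomputable def base (t : Fin n → K) : IntermediateField ℂ K :=
  IntermediateField.adjoin ℂ (Set.range t)

/-- the field which is generated by the coordinates `t` on the base and by `x` and `y` -/
noncomputable def family (t : Fin n → K) (x y : K) : IntermediateField ℂ K :=
  IntermediateField.adjoin ℂ (Set.range t ∪ {x, y})

/-- the polynomial `F(t, X)` in `X` -/
noncomputable def atBase (t : Fin n → K) (F : (MvPolynomial (Fin n) ℂ)[X]) : K[X] :=
  F.map (MvPolynomial.aeval t : MvPolynomial (Fin n) ℂ →ₐ[ℂ] K).toRingHom

/-- the differential `ω` with `ω(D) = T` on the curve with the function field `K` over `L` is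
regular: at each place `p`, with uniformizer `π`, the order of `ω = (T / D(π)) dπ` is at
least zero -/
def RegForm (L : IntermediateField ℂ K) (D : Derivation ℂ K K) (T : K) : Prop :=
  ∀ (p : Place L K) (π : K), p.ord π = 1 → T = 0 ∨ p.ord (D π) ≤ p.ord T

/-- Let `B ⊂ K` be the function fields of the curves `H` and `C` over the field of the base, and let
`π : C → H` be the corresponding map. If `ω` is the differential on `C` with `ω(D) = T`, then this is
the value at `D` of the differential `π^* π_* ω`, the trace of `ω`. Here `x` is a nonconstant function
on `H`, and `π_* ω` is the trace of `ω / dx` times `dx`. -/
noncomputable def transfer (B : IntermediateField ℂ K) (D : Derivation ℂ K K) (x T : K) : K :=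
  (Algebra.trace B K (T / D x) : K) * D x

end

end Pool.Agent.Z15
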