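import Pool.Agent.Z15.B
import Pool.Agent.Z15.Defs

/-!
Zero-cycles on a variety which is fibred in curves whose Jacobian variety decomposes.
-/

set_option autoImplicit false
set_option linter.all false

open FF Polynomial Pool.Agent.W603.LV Pool.Agent.W602.GT Pool.Agent.N162.BC

namespace Pool.Agent.Z15

/-- the additive function on cycles defined by a function on the points -/
noncomputable def lam {P A : Type} [CommRing A] (G : P → A) : (P →₀ ℤ) →+ A :=
  Finsupp.liftAddHom fun s => (AddMonoidHom.mulRight (G s)).comp (Int.castAddHom A)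

theorem lam_single {P A : Type} [CommRing A] (G : P → A) (s : P) (a : ℤ) :
    lam G (Finsupp.single s a) = (a : A) * G s := by
  unfold lam
  rw [Finsupp.liftAddHom_apply_single]
  rfl

theorem lam_apply {P A : Type} [CommRing A] (G : P → A) (c : P →₀ ℤ) :
    lam G c = ∑ s ∈ c.support, (c s : A) * G s := by
  unfold lam
  rw [Finsupp.liftAddHom_apply]
  rfl

theorem lam_mapDomain {P Q A : Type} [CommRing A] (G : Q → A) (f : P → Q) (c : P →₀ ℤ) :
    lam G (c.mapDomain f) = lam (G ∘ f) c := by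
  induction c using Finsupp.induction_linear with
  | zero => simp
  | add a b ha hb => rw [Finsupp.mapDomain_add, map_add, map_add, ha, hb]
  | single s a =>
    rw [Finsupp.mapDomain_single, lam_single, lam_single]
    rfl

theorem fib_mem2 (L K Ω : Type) [Field L] [Field K] [Field Ω] [Algebra ℂ L] [Algebra ℂ K]
    [Algebra ℂ Ω] [Algebra L K] [Algebra L Ω] [IsScalarTower ℂ L K] [IsScalarTower ℂ L Ω]
    [IsAlgClosed Ω] [IsFF L K] (h : algebraicClosure L K = ⊥)
    (hΩ : Algebra.trdeg L Ω = 1) (δ : Derivation L Ω Ω) (hδ : δ ≠ 0) {x : K}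
    (hx : Transcendental L x) (D0 : Derivation L K K) (hD0 : D0 x = 1)
    (c : (K →ₐ[ℂ] Ω) →₀ ℤ)
    (hc0 : ∀ s, c s ≠ 0 → ∀ l : L, s (algebraMap L K l) = algebraMap L Ω l)
    (hc : ∀ T : K, (∀ (p : Place L K) (π : K), p.ord π = 1 → Ge p (p.ord (D0 π)) T) →
      lam (fun s : K →ₐ[ℂ] Ω => s T * δ (s x)) c = 0) :
    c ∈ Rat K Ω := by
  classical
  have hrs : Function.Injective (fun σ : K →ₐ[L] Ω => σ.restrictScalars ℂ) :=
    AlgHom.restrictScalars_injective ℂ
  obtain ⟨cL, rfl⟩ : ∃ cL : (K →ₐ[L] Ω) →₀ ℤ,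
      cL.mapDomain (fun σ : K →ₐ[L] Ω => σ.restrictScalars ℂ) = c := by
    refine ⟨c.comapDomain _ hrs.injOn, Finsupp.mapDomain_comapDomain _ hrs c ?_⟩
    intro s hs
    exact ⟨{ s with commutes' := hc0 s (Finsupp.mem_support_iff.1 hs) }, rfl⟩
  refine fib_mem L K Ω h hΩ δ hδ hx D0 hD0 cL fun T hT => ?_
  have h1 := hc T hT
  rw [lam_mapDomain, lam_apply] at h1
  exact h1

theorem der_aux {L K Ω : Type} [Field L] [Field K] [Field Ω] [Algebra L K] [Algebra L Ω]
    [CharZero L] {x0 : K} (hx0 : IsTranscendenceBasis L (fun _ : Unit => x0))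
    (D0 : Derivation L K K) (hD0 : D0 x0 = 1) (δ : Derivation L Ω Ω) (s : K →ₐ[L] Ω) (a : K) :
    δ (s a) = s (D0 a) * δ (s x0) := by
  let i3 : Algebra K Ω := s.toRingHom.toAlgebra
  have h4 : ∀ b : K, algebraMap K Ω b = s b := fun b => rfl
  have i4 : IsScalarTower L K Ω := IsScalarTower.of_algebraMap_eq fun l => (s.commutes l).symm
  have hsm : ∀ (b : K) (c : Ω), b • c = s b * c := fun b c => Algebra.smul_def b c
  let E : Derivation L K Ω := Derivation.mk'
    { toFun := fun a => δ (s a) - s (D0 a) * δ (s x0)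
      map_add' := fun a b => by
        simp only [map_add]
        ring
      map_smul' := fun c a => by
        rw [RingHom.id_apply, map_smul, δ.map_smul, D0.map_smul, map_smul, smul_mul_assoc,
          smul_sub] }
    (fun a b => by
      change δ (s (a * b)) - s (D0 (a * b)) * δ (s x0) = a • (δ (s b) - s (D0 b) * δ (s x0)) +
        b • (δ (s a) - s (D0 a) * δ (s x0))
      rw [hsm, hsm, map_mul, δ.leibniz, D0.leibniz, smul_eq_mul, smul_eq_mul, smul_eq_mul,
        smul_eq_mul, map_add, map_mul, map_mul]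
      ring)
  have h1 : E = 0 := by
    refine derv_eq_zero E (Set.range fun _ : Unit => x0) hx0.isAlgebraic_field ?_
    rintro _ ⟨i, rfl⟩
    change δ (s x0) - s (D0 x0) * δ (s x0) = 0
    rw [hD0, map_one, one_mul, sub_self]
  have h2 : E a = 0 := by
    rw [h1]
    rfl
  exact sub_eq_zero.1 h2

theorem assemble {K Ω : Type} [Field K] [Algebra ℂ K] [Algebra.EssFiniteType ℂ K] [Field Ω]
    [Algebra ℂ Ω] [IsAlgClosed Ω] {n : ℕ} (hK : Algebra.trdeg ℂ K = (n + 1 : ℕ))
    (hΩ : Algebra.trdeg ℂ Ω = (n + 1 : ℕ)) (L : IntermediateField ℂ K)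
    (hL : Algebra.trdeg ℂ L = (n : ℕ)) (hLK : ∀ a : K, IsAlgebraic L a → a ∈ L)
    (D : Derivation ℂ K K) (hD : D ≠ 0) (hDL : ∀ l ∈ L, D l = 0) {ι : Type} [Fintype ι]
    (B : ι → IntermediateField ℂ K) (hLB : ∀ i, L ≤ B i) [∀ i, FiniteDimensional (B i) K]
    (x : ι → K) (hxB : ∀ i, x i ∈ B i) (hDx : ∀ i, D (x i) ≠ 0) (c : ι → ℚ)
    (hid : ∀ T, RegForm L D T → T = ∑ i, (c i : K) * transfer (B i) D (x i) T)
    (σ : K →ₐ[ℂ] Ω)
    (hpre : ∀ i, ∃ N : ℕ, 0 < N ∧ N • pre (B i) K (restr (B i) Ω σ) ∈ Rat K Ω) :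
    ∃ N : ℕ, 0 < N ∧ Finsupp.single σ (N : ℤ) ∈ Rat K Ω := by
  classical
  have hcΩ : CharZero Ω := charZero_of_injective_algebraMap (algebraMap ℂ Ω).injective
  have hcL : CharZero L := charZero_of_injective_algebraMap (algebraMap ℂ L).injective
  have hcK : CharZero K := charZero_of_injective_algebraMap (algebraMap ℂ K).injective
  have hess : Algebra.EssFiniteType L K := Algebra.EssFiniteType.of_comp ℂ L K
  have hFF : IsFF L K := ⟨hess, trdeg_one hK hL⟩
  have hac : algebraicClosure L K = ⊥ := by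
    rw [eq_bot_iff]
    intro a ha
    rw [mem_algebraicClosure_iff] at ha
    exact IntermediateField.mem_bot.2 ⟨⟨a, hLK a ha⟩, rfl⟩
  obtain ⟨x0, hx0⟩ := IsFF.exists_transcendental (k := L) (K := K)
  let D' : Derivation L K K := Derivation.mk'
    { toFun := fun a => D a
      map_add' := fun a b => map_add D a b
      map_smul' := fun l a => by
        change D (l • a) = l • D a
        rw [Algebra.smul_def, Algebra.smul_def, D.leibniz]
        have h1 : D (algebraMap L K l) = 0 := hDL _ l.2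
        rw [h1, smul_zero, add_zero, smul_eq_mul] }
    (fun a b => D.leibniz a b)
  have hD'a : ∀ a, D' a = D a := fun a => rfl
  have hD'0 : D' ≠ 0 := by
    intro h0
    apply hD
    ext a
    rw [← hD'a, h0]
    rfl
  have hDx0 : D x0 ≠ 0 := by
    intro h0
    apply hD'0
    refine Pool.Agent.W602.GT.der_ext (fun _ : Unit => x0) (IsFF.basis hx0) fun _ => ?_
    rw [hD'a]
    exact h0
  let D0 : Derivation L K K := (D x0)⁻¹ • D'
  have hD0a : ∀ a, D0 a = (D x0)⁻¹ * D a := fun a => rfl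
  have hD0 : D0 x0 = 1 := by
    rw [hD0a]
    exact inv_mul_cancel₀ hDx0
  let i1 : Algebra L Ω := (σ.comp L.val).toRingHom.toAlgebra
  have hi1 : ∀ l : L, algebraMap L Ω l = σ l := fun l => rfl
  have i2 : IsScalarTower ℂ L Ω := IsScalarTower.of_algebraMap_eq fun z => by
    rw [hi1]
    exact (σ.commutes z).symm
  have htrΩ : Algebra.trdeg L Ω = 1 := trdeg_one hΩ hL
  obtain ⟨w, hw⟩ := exists_transc (L := L) (Ω := Ω) htrΩ
  obtain ⟨δ, hδ⟩ := Pool.Agent.W602.GT.exists_der (fun _ : Unit => w) (basis_one htrΩ hw)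
    (fun _ => 1)
  have hδw : δ w = 1 := hδ ()
  have hδne : δ ≠ 0 := by
    rintro rfl
    simp at hδw
  -- the derivation on the points over the same point of the base
  have hder : ∀ s : K →ₐ[ℂ] Ω, (∀ l : L, s l = σ l) → ∀ a : K,
      δ (s a) = s (D a) * (δ (s x0) / s (D x0)) := by
    intro s hs a
    have h1 := der_aux (IsFF.basis hx0) D0 hD0 δ { s with commutes' := fun l => hs l } a
    have h2 : δ (s a) = s (D0 a) * δ (s x0) := h1
    rw [h2, hD0a, map_mul, map_inv₀]
    have h3 : s (D x0) ≠ 0 := by simpa using hDx0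
    field_simp
  obtain ⟨G, hG⟩ : ∃ G : K → (K →ₐ[ℂ] Ω) → Ω, ∀ T s, G T s = s T * δ (s x0) := ⟨_, fun _ _ => rfl⟩
  have hsL : ∀ i (s : K →ₐ[ℂ] Ω), restr (B i) Ω s = restr (B i) Ω σ → ∀ b ∈ B i, s b = σ b := by
    intro i s hs b hb
    exact congrArg (fun q : B i →ₐ[ℂ] Ω => q ⟨b, hb⟩) hs
  -- the trace of a form on the inverse image of a point
  have hforms : ∀ T : K, (∀ (p : Place L K) (π : K), p.ord π = 1 → Ge p (p.ord (D0 π)) T) →
      ∃ S : ι → Ω, G T σ = ∑ i, (c i : Ω) * S i ∧
        ∀ i, lam (G T) (pre (B i) K (restr (B i) Ω σ)) = S i := by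
    intro T hT
    have hl := hid (T * D x0) (by
      intro p π hπ
      rcases hT p π hπ with h | h
      · left
        rw [h, zero_mul]
      · by_cases hT0 : T = 0
        · left
          rw [hT0, zero_mul]
        right
        have h2 : D π = D x0 * D0 π := by
          rw [hD0a, mul_inv_cancel_left₀ hDx0]
        by_cases h3 : D0 π = 0
        · have hπ0 : Transcendental L π := p.transcendental_of_ord_ne (by omega)
          exfalso
          have h4 : D' = 0 := by
            refine Pool.Agent.W602.GT.der_ext (fun _ : Unit => π) (IsFF.basis hπ0) fun _ => ?_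
            rw [hD'a, h2, h3, mul_zero]
            rfl
          exact hD'0 h4
        rw [h2, p.ord_mul hDx0 h3, p.ord_mul hT0 hDx0]
        omega)
    refine ⟨fun i => σ (Algebra.trace (B i) K (T * D x0 / D (x i)) : K) * δ (σ (x i)), ?_,
      fun i => ?_⟩
    · have hDx0' : σ (D x0) ≠ 0 := by simpa using hDx0
      have h1 : G T σ = σ (T * D x0) * (δ (σ x0) / σ (D x0)) := by
        rw [hG, map_mul]
        field_simp
      rw [h1]
      conv_lhs => rw [hl]
      rw [map_sum, Finset.sum_mul]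
      refine Finset.sum_congr rfl fun i _ => ?_
      unfold transfer
      change _ = (c i : Ω) * (σ (Algebra.trace (B i) K (T * D x0 / D (x i)) : K) * δ (σ (x i)))
      rw [hder σ (fun _ => rfl) (x i), map_mul, map_mul, map_ratCast]
      ring
    · have h1 : lam (G T) (pre (B i) K (restr (B i) Ω σ)) =
          ∑ s ∈ fib (B i) K (restr (B i) Ω σ), s (T * D x0 / D (x i)) * δ (σ (x i)) := by
        unfold pre
        rw [map_sum]
        refine Finset.sum_congr rfl fun s hs => ?_
        have hs' := hsL i s (mem_fib.1 hs)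
        have hDx0' : s (D x0) ≠ 0 := by simpa using hDx0
        have hDxi : s (D (x i)) ≠ 0 := by simpa using hDx i
        rw [lam_single, Int.cast_one, one_mul, hG, ← hs' (x i) (hxB i),
          hder s (fun l => hs' l (hLB i l.2)) (x i), map_div₀, map_mul]
        field_simp
      rw [h1, ← Finset.sum_mul, trace_fib]
      rfl
  -- the cycle
  obtain ⟨m, hm⟩ : ∃ m : ℕ, m = ∏ i, (c i).den := ⟨_, rfl⟩
  have hm0 : 0 < m := by
    rw [hm]
    exact Finset.prod_pos fun i _ => (c i).den_pos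
  have hex : ∀ i, ∃ e : ℤ, (e : ℚ) = m * c i := by
    intro i
    have h1 : (c i).den ∣ m := by
      rw [hm]
      exact Finset.dvd_prod_of_mem _ (Finset.mem_univ i)
    obtain ⟨k, hk⟩ := h1
    refine ⟨k * (c i).num, ?_⟩
    have h2 : (c i) * (c i).den = (c i).num := Rat.mul_den_eq_num _
    rw [hk]
    push_cast
    rw [← h2]
    ring
  choose e he using hex
  have heΩ : ∀ i, (e i : Ω) = m * (c i : Ω) := by
    intro i
    have h1 : (((e i : ℚ)) : Ω) = ((m * c i : ℚ) : Ω) := by rw [he i]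
    push_cast at h1
    exact h1
  obtain ⟨z, hz⟩ : ∃ z : (K →ₐ[ℂ] Ω) →₀ ℤ, z = Finsupp.single σ (m : ℤ) -
      ∑ i, e i • pre (B i) K (restr (B i) Ω σ) := ⟨_, rfl⟩
  have hcR : z ∈ Rat K Ω := by
    refine fib_mem2 L K Ω hac htrΩ δ hδne hx0 D0 hD0 z ?_ ?_
    · intro s hs l
      by_contra hne
      apply hs
      rw [hz, Finsupp.sub_apply, Finset.sum_apply', Finsupp.single_apply, if_neg]
      · rw [zero_sub, neg_eq_zero]
        refine Finset.sum_eq_zero fun i _ => ?_
        rw [Finsupp.smul_apply, pre_apply, if_neg, smul_zero]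
        intro h1
        exact hne (hsL i s h1 l (hLB i l.2))
      · rintro rfl
        exact hne rfl
    · intro T hT
      obtain ⟨S, hS1, hS2⟩ := hforms T hT
      have h0 : (fun s : K →ₐ[ℂ] Ω => s T * δ (s x0)) = G T := by
        funext s
        rw [hG]
      rw [h0, hz, map_sub, lam_single, map_sum, hS1, Finset.mul_sum, ← Finset.sum_sub_distrib]
      refine Finset.sum_eq_zero fun i _ => ?_
      rw [map_zsmul, hS2, zsmul_eq_mul, heΩ, Int.cast_natCast]
      ring
  choose N hN0 hN using hpre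
  refine ⟨(∏ i, N i) * m, Nat.mul_pos (Finset.prod_pos fun i _ => hN0 i) hm0, ?_⟩
  have h1 : Finsupp.single σ (((∏ i, N i) * m : ℕ) : ℤ) = (∏ i, N i) • z +
      ∑ i, (e i * (∏ j ∈ Finset.univ.erase i, N j : ℕ)) •
        (N i • pre (B i) K (restr (B i) Ω σ)) := by
    have h2 : ∑ i, (e i * (∏ j ∈ Finset.univ.erase i, N j : ℕ)) •
        (N i • pre (B i) K (restr (B i) Ω σ)) =
          (∏ i, N i) • ∑ i, e i • pre (B i) K (restr (B i) Ω σ) := by
      rw [Finset.smul_sum]
      refine Finset.sum_congr rfl fun i _ => ?_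
      rw [← natCast_zsmul, ← natCast_zsmul, smul_smul, smul_smul, mul_assoc, ← Nat.cast_mul,
        mul_comm _ (N i), Finset.mul_prod_erase _ _ (Finset.mem_univ i), mul_comm]
    rw [h2, hz, smul_sub, sub_add_cancel, Finsupp.smul_single, nsmul_eq_mul]
    push_cast
    rfl
  rw [h1]
  refine add_mem (nsmul_mem hcR _) (sum_mem fun i _ => zsmul_mem (hN i) _)

end Pool.Agent.Z15
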