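import Pool.Agent.Z15.E
import Pool.Agent.Z15.D2

/-!
Zero-cycles on varieties which are fibred in curves over the affine space.
-/

set_option autoImplicit false
set_option linter.all false

open FF Polynomial Pool.Agent.W603.LV Pool.Agent.W602.GT Pool.Agent.N162.BC

namespace Pool.Agent.Z15

section

variable {K : Type} [Field K] [Algebra ℂ K] {n : ℕ}

theorem trdeg_base {t : Fin n → K} (ht : AlgebraicIndependent ℂ t) :
    Algebra.trdeg ℂ (base t) = (n : ℕ) := by
  have h2 := ht.aevalEquivField.trdeg_eq
  unfold base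
  rw [← h2]
  have h0 : Algebra.IsAlgebraic (MvPolynomial (Fin n) ℂ) (FractionRing (MvPolynomial (Fin n) ℂ)) :=
    IsLocalization.isAlgebraic (S := FractionRing (MvPolynomial (Fin n) ℂ)) (nonZeroDivisors _)
  have h1 := (IsTranscendenceBasis.mvPolynomial (Fin n) ℂ).algebraMap_comp
    (A := FractionRing (MvPolynomial (Fin n) ℂ))
  rw [← h1.cardinalMk_eq_trdeg]
  simp

theorem t_mem_base (t : Fin n → K) (i : Fin n) : t i ∈ base t :=
  IntermediateField.subset_adjoin ℂ _ ⟨i, rfl⟩

theorem evF_eq_zero {t : Fin n → K} (ht : AlgebraicIndependent ℂ t) {x : K}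
    (hx : Transcendental (base t) x) (A : (MvPolynomial (Fin n) ℂ)[X]) (hA : evF A t x = 0) :
    A = 0 := by
  let α : MvPolynomial (Fin n) ℂ →ₐ[ℂ] base t :=
    MvPolynomial.aeval fun i => (⟨t i, t_mem_base t i⟩ : base t)
  have hcomp : ((algebraMap (base t) K).comp α.toRingHom) =
      (MvPolynomial.aeval t : MvPolynomial (Fin n) ℂ →ₐ[ℂ] K).toRingHom := by
    apply MvPolynomial.ringHom_ext
    · intro z
      simp [α]
    · intro i
      simp [α]
  have hinj : Function.Injective α.toRingHom := by
    intro p q h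
    have h1 : (MvPolynomial.aeval t : MvPolynomial (Fin n) ℂ →ₐ[ℂ] K).toRingHom p =
        (MvPolynomial.aeval t : MvPolynomial (Fin n) ℂ →ₐ[ℂ] K).toRingHom q := by
      rw [← hcomp, RingHom.comp_apply, RingHom.comp_apply, h]
    exact ht h1
  have h1 : Polynomial.aeval x (A.map α.toRingHom) = 0 := by
    rw [Polynomial.aeval_def, Polynomial.eval₂_map, hcomp]
    exact hA
  have h2 := (transcendental_iff.1 hx) _ h1
  exact (Polynomial.map_eq_zero_iff hinj).1 h2

theorem frac_family (t : Fin n → K) (x y : K) {tB : Fin n → family t x y} {xB yB : family t x y}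
    (ht : ∀ i, (tB i : K) = t i) (hx : (xB : K) = x) (hy : (yB : K) = y) (b : family t x y) :
    ∃ P Q, ev2 tB xB yB Q ≠ 0 ∧ b = ev2 tB xB yB P / ev2 tB xB yB Q := by
  have hev : ∀ P, ((ev2 tB xB yB P : family t x y) : K) = ev2 t x y P := by
    intro P
    have h1 := ev2_map (family t x y).val tB xB yB P
    have h2 : (fun i => (family t x y).val (tB i)) = t := funext ht
    rw [h2] at h1
    have h3 : (family t x y).val xB = x := hx
    have h4 : (family t x y).val yB = y := hy
    rw [h3, h4] at h1
    exact h1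
  have hadj : ∀ r ∈ Algebra.adjoin ℂ (Set.range t ∪ {x, y}), ∃ P, ev2 t x y P = r := by
    intro r hr
    induction hr using Algebra.adjoin_induction with
    | mem r hr =>
      rcases hr with ⟨i, rfl⟩ | hr
      · exact ⟨C (C (MvPolynomial.X i)), by rw [ev2_C, ev1_C, MvPolynomial.aeval_X]⟩
      · rcases hr with rfl | hr
        · exact ⟨C X, by rw [ev2_C, ev1_X]⟩
        · rw [Set.mem_singleton_iff] at hr
          exact ⟨X, by rw [ev2_X, hr]⟩
    | algebraMap z => exact ⟨C (C (MvPolynomial.C z)), by rw [ev2_C, ev1_C, MvPolynomial.aeval_C]⟩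
    | add a b _ _ ha hb =>
      obtain ⟨P, rfl⟩ := ha
      obtain ⟨Q, rfl⟩ := hb
      exact ⟨P + Q, map_add _ _ _⟩
    | mul a b _ _ ha hb =>
      obtain ⟨P, rfl⟩ := ha
      obtain ⟨Q, rfl⟩ := hb
      exact ⟨P * Q, map_mul _ _ _⟩
  obtain ⟨r, hr, s, hs, hb⟩ := IntermediateField.mem_adjoin_iff_div.1 b.2
  obtain ⟨P, rfl⟩ := hadj r hr
  obtain ⟨Q, rfl⟩ := hadj s hs
  by_cases hQ : ev2 t x y Q = 0
  · refine ⟨0, 1, by rw [map_one]; exact one_ne_zero, ?_⟩
    apply Subtype.ext
    rw [hb, hQ, div_zero, map_zero, zero_div]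
    rfl
  · refine ⟨P, Q, fun h => hQ ?_, ?_⟩
    · rw [← hev, h]
      rfl
    · apply Subtype.ext
      rw [hb, ← hev, ← hev]
      rfl

end

theorem family_finite {K : Type} [Field K] [Algebra ℂ K] {n : ℕ} (t : Fin n → K)
    (x y : K) [IsFF (base t) K] (hx : Transcendental (base t) x) :
    FiniteDimensional (family t x y) K := by
  have h1 : base t ≤ family t x y :=
    IntermediateField.adjoin.mono ℂ _ _ Set.subset_union_left
  have h2 := IsFF.finite (k := base t) (K := K) hx
  have hxm : x ∈ family t x y :=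
    IntermediateField.subset_adjoin ℂ _ (Or.inr (Or.inl rfl))
  have h3 : ∀ a : IntermediateField.adjoin (base t) {x}, (a : K) ∈ family t x y := by
    intro a
    have h4 : IntermediateField.adjoin (base t) {x} ≤
        IntermediateField.extendScalars (F := base t) (E := family t x y) h1 := by
      rw [IntermediateField.adjoin_simple_le_iff, IntermediateField.mem_extendScalars]
      exact hxm
    exact (IntermediateField.mem_extendScalars _).1 (h4 a.2)
  let i1 : Algebra (IntermediateField.adjoin (base t) {x}) (family t x y) :=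
    ((algebraMap (IntermediateField.adjoin (base t) {x}) K).codRestrict (family t x y).toSubring
      h3).toAlgebra
  have i2 : IsScalarTower (IntermediateField.adjoin (base t) {x}) (family t x y) K :=
    IsScalarTower.of_algebraMap_eq fun a => rfl
  exact FiniteDimensional.right (IntermediateField.adjoin (base t) {x}) (family t x y) K

theorem pre_family {K Ω : Type} [Field K] [Algebra ℂ K] [Field Ω]
    [Algebra ℂ Ω] [IsAlgClosed Ω] {n : ℕ} (hn : 0 < n) {t : Fin n → K}
    (ht : AlgebraicIndependent ℂ t) {m : ℕ} {F : (MvPolynomial (Fin n) ℂ)[X]} {x y : K}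
    (hdeg : ∀ j, F.coeff j ≠ 0 → (F.coeff j).totalDegree + m * j ≤ 2 * (n + m))
    (h3 : 3 ≤ F.natDegree) (hsep : (atBase t F).Separable)
    (hxt : Transcendental (base t) x) (hy : y ^ 2 = (atBase t F).eval x)
    (B : IntermediateField ℂ K) (hB : B = family t x y) [FiniteDimensional B K]
    (σ : K →ₐ[ℂ] Ω) : ∃ N : ℕ, 0 < N ∧ N • pre B K (restr B Ω σ) ∈ Rat K Ω := by
  classical
  subst hB
  have hcK : CharZero K := charZero_of_injective_algebraMap (algebraMap ℂ K).injective
  have hLB : base t ≤ family t x y := IntermediateField.adjoin.mono ℂ _ _ Set.subset_union_left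
  have hxB : x ∈ family t x y := IntermediateField.subset_adjoin ℂ _ (Or.inr (Or.inl rfl))
  have hyB : y ∈ family t x y := IntermediateField.subset_adjoin ℂ _ (Or.inr (Or.inr rfl))
  let tB : Fin n → family t x y := fun k => ⟨t k, hLB (t_mem_base t k)⟩
  let xB : family t x y := ⟨x, hxB⟩
  let yB : family t x y := ⟨y, hyB⟩
  have hval : ∀ A : (MvPolynomial (Fin n) ℂ)[X],
      ((evF A tB xB : family t x y) : K) = evF A t x := fun A =>
    evF_map A (family t x y).val tB xB
  have hcomp : ((algebraMap (family t x y) K).comp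
      (MvPolynomial.aeval tB : MvPolynomial (Fin n) ℂ →ₐ[ℂ] family t x y).toRingHom) =
        (MvPolynomial.aeval t : MvPolynomial (Fin n) ℂ →ₐ[ℂ] K).toRingHom := by
    apply MvPolynomial.ringHom_ext
    · intro z
      simp
    · intro k
      simp [tB]
  have hat : ((F.map (MvPolynomial.aeval tB : MvPolynomial (Fin n) ℂ →ₐ[ℂ]
      family t x y).toRingHom).map (algebraMap (family t x y) K)) = atBase t F := by
    unfold atBase
    rw [Polynomial.map_map, hcomp]
  have hevK : evF F t x = (atBase t F).eval x := by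
    unfold evF atBase
    rw [eval_map]
  have hy0 : y ≠ 0 := by
    intro h0
    have h1 : evF F t x = 0 := by
      rw [hevK, ← hy, h0]
      ring
    have h2 := evF_eq_zero ht hxt _ h1
    rw [h2, natDegree_zero] at h3
    exact absurd h3 (by norm_num)
  obtain ⟨M, a1, a2, a3, τ, v0, f, hτ, hv0, hf0, hf, hng⟩ := exists_curve F hn hdeg h3
    tB xB yB (fun h => hy0 (congrArg Subtype.val h)) (by
      apply Subtype.ext
      rw [hval, hevK]
      exact hy)
    (fun A hA => evF_eq_zero ht hxt A (by
      rw [← hval, hA]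
      rfl))
    (by
      rw [← Polynomial.separable_map (algebraMap (family t x y) K), hat]
      exact hsep)
    (frac_family t x y (fun _ => rfl) rfl rfl) (restr (family t x y) Ω σ)
  exact pull_mem τ hτ (restr (family t x y) Ω σ) v0 hv0 f hf0 hf hng

theorem main1 {K Ω : Type} [Field K] [Algebra ℂ K] [Algebra.EssFiniteType ℂ K] [Field Ω]
    [Algebra ℂ Ω] [IsAlgClosed Ω] {n : ℕ} (hn : 0 < n) (hK : Algebra.trdeg ℂ K = (n + 1 : ℕ))
    (hΩ : Algebra.trdeg ℂ Ω = (n + 1 : ℕ)) (t : Fin n → K) (ht : AlgebraicIndependent ℂ t)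
    (hLK : ∀ a : K, IsAlgebraic (base t) a → a ∈ base t)
    (D : Derivation ℂ K K) (hD : D ≠ 0) (hDt : ∀ k, D (t k) = 0) {ι : Type} [Fintype ι]
    (m : ι → ℕ) (F : ι → (MvPolynomial (Fin n) ℂ)[X]) (x y : ι → K)
    (hdeg : ∀ i j, (F i).coeff j ≠ 0 → ((F i).coeff j).totalDegree + m i * j ≤ 2 * (n + m i))
    (h3 : ∀ i, 3 ≤ (F i).natDegree) (hsep : ∀ i, (atBase t (F i)).Separable)
    (hx : ∀ i, x i ∉ base t) (hy : ∀ i, y i ^ 2 = (atBase t (F i)).eval (x i))
    (c : ι → ℚ) (hid : ∀ T, RegForm (base t) D T →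
      T = ∑ i, (c i : K) * transfer (family t (x i) (y i)) D (x i) T)
    (σ : K →ₐ[ℂ] Ω) : ∃ N : ℕ, 0 < N ∧ Finsupp.single σ (N : ℤ) ∈ Rat K Ω := by
  classical
  have hcK : CharZero K := charZero_of_injective_algebraMap (algebraMap ℂ K).injective
  have hcL : CharZero (base t) := charZero_of_injective_algebraMap (algebraMap ℂ (base t)).injective
  have hL := trdeg_base ht
  have hess : Algebra.EssFiniteType (base t) K := Algebra.EssFiniteType.of_comp ℂ (base t) K
  have hFF : IsFF (base t) K := ⟨hess, trdeg_one hK hL⟩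
  have hxt : ∀ i, Transcendental (base t) (x i) := fun i h => hx i (hLK _ h)
  have hDL : ∀ l ∈ base t, D l = 0 := by
    intro l hl
    unfold base at hl
    induction hl using IntermediateField.adjoin_induction with
    | mem a ha =>
      obtain ⟨k, rfl⟩ := ha
      exact hDt k
    | algebraMap z => exact D.map_algebraMap z
    | add a b _ _ ha hb => rw [map_add, ha, hb, add_zero]
    | inv a _ ha => rw [D.leibniz_inv, ha, smul_zero]
    | mul a b _ _ ha hb => rw [D.leibniz, ha, hb, smul_zero, smul_zero, add_zero]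
  have hLB : ∀ i, base t ≤ family t (x i) (y i) := fun i =>
    IntermediateField.adjoin.mono ℂ _ _ Set.subset_union_left
  have hxB : ∀ i, x i ∈ family t (x i) (y i) := fun i =>
    IntermediateField.subset_adjoin ℂ _ (Or.inr (Or.inl rfl))
  have hyB : ∀ i, y i ∈ family t (x i) (y i) := fun i =>
    IntermediateField.subset_adjoin ℂ _ (Or.inr (Or.inr rfl))
  have hfin : ∀ i, FiniteDimensional (family t (x i) (y i)) K := fun i =>
    family_finite t (x i) (y i) (hxt i)
  have hDx : ∀ i, D (x i) ≠ 0 := by
    intro i h0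
    apply hD
    let D' : Derivation (base t) K K := Derivation.mk'
      { toFun := fun a => D a
        map_add' := fun a b => map_add D a b
        map_smul' := fun l a => by
          change D (l • a) = l • D a
          rw [Algebra.smul_def, Algebra.smul_def, D.leibniz]
          have h1 : D (algebraMap (base t) K l) = 0 := hDL _ l.2
          rw [h1, smul_zero, add_zero, smul_eq_mul] }
      (fun a b => D.leibniz a b)
    have h4 : D' = 0 := by
      refine Pool.Agent.W602.GT.der_ext (fun _ : Unit => x i) (IsFF.basis (hxt i)) fun _ => ?_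
      change D (x i) = 0
      exact h0
    ext a
    change D' a = 0
    rw [h4]
    rfl
  refine assemble hK hΩ (base t) hL hLK D hD hDL (fun i => family t (x i) (y i)) hLB x hxB hDx
    c hid σ (fun i => pre_family hn ht (hdeg i) (h3 i) (hsep i) (hxt i) (hy i) _ rfl σ)

end Pool.Agent.Z15
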