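import Pool.Agent.N162.BC.Pull
import Pool.Agent.W602.GT.Loc

/-!
The canonical form on an elliptic surface with a minimal Weierstrass equation.
-/

set_option autoImplicit false
set_option linter.all false

open FF Polynomial Pool.Agent.W603.LV Pool.Agent.W602.GT Pool.Agent.N162.BC

namespace Pool.Agent.Z15

section

variable {K : Type} [Field K] [Algebra ℂ K]

/-- the value of `df ∧ dg` on the vector fields `E` -/
noncomputable def jac (E : Fin 2 → Derivation ℂ K K) (f g : K) : K := E 0 f * E 1 g - E 1 f * E 0 g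

theorem jac_ge {P : Place ℂ K} {E : Fin 2 → Derivation ℂ K K} (hE : ∀ i, DerReg P (E i)) {f g : K}
    (hf : f ≠ 0) (hg : g ≠ 0) : Ge P (P.ord f + P.ord g - 1) (jac E f g) := by
  have h1 := det_log E hE ![f, g] (by
    intro j
    fin_cases j
    · exact hf
    · exact hg)
  rw [Matrix.det_fin_two] at h1
  simp only [Matrix.of_apply, Matrix.cons_val_zero, Matrix.cons_val_one] at h1
  have h2 := ((ge_ord P f).mul (ge_ord P g)).mul h1
  have h3 : f * g * (E 0 f / f * (E 1 g / g) - E 0 g / g * (E 1 f / f)) = jac E f g := by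
    unfold jac
    field_simp
  rw [h3] at h2
  exact h2.mono (by omega)

theorem jac_reg {P : Place ℂ K} {E : Fin 2 → Derivation ℂ K K} (hE : ∀ i, DerReg P (E i)) {f g : K}
    (hf : Ge P 0 f) (hg : Ge P 0 g) : Ge P 0 (jac E f g) := by
  unfold jac
  have a1 : Ge P 0 (E 0 f) := hE 0 f hf
  have a2 : Ge P 0 (E 1 f) := hE 1 f hf
  have a3 : Ge P 0 (E 0 g) := hE 0 g hg
  have a4 : Ge P 0 (E 1 g) := hE 1 g hg
  have h2 := (a1.mul a4).sub (a2.mul a3)
  rwa [add_zero] at h2

theorem jac_add (E : Fin 2 → Derivation ℂ K K) (f g h : K) :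
    jac E f (g + h) = jac E f g + jac E f h := by
  unfold jac
  rw [map_add, map_add]
  ring

theorem jac_mul (E : Fin 2 → Derivation ℂ K K) (f g h : K) :
    jac E f (g * h) = g * jac E f h + h * jac E f g := by
  unfold jac
  rw [Derivation.leibniz, Derivation.leibniz]
  simp only [smul_eq_mul]
  ring

theorem jac_const (E : Fin 2 → Derivation ℂ K K) (f : K) (c : ℂ) :
    jac E f (algebraMap ℂ K c) = 0 := by
  unfold jac
  rw [Derivation.map_algebraMap, Derivation.map_algebraMap]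
  ring

theorem ge_nat {P : Place ℂ K} (n : ℕ) : Ge P 0 (n : K) := Ge.natCast n

theorem key {P : Place ℂ K} {E : Fin 2 → Derivation ℂ K K} (hE : ∀ i, DerReg P (E i))
    {s x y a b : K} (hs : s ≠ 0) (hs0 : 0 ≤ P.ord s) (hy0 : y ≠ 0) (hy : y ^ 2 = x ^ 3 + a * x + b)
    (ha : jac E s a = 0) (hb : jac E s b = 0) (hn : ¬ Ge P 0 (jac E s x / y)) :
    Ge P (4 * P.ord s) a ∧ Ge P (6 * P.ord s) b ∧ Ge P 0 x ∧ jac E s x ≠ 0 ∧
      P.ord (jac E s x) + 1 ≤ P.ord y ∧ Ge P (P.ord (jac E s x) + 1) (3 * x ^ 2 + a) := by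
  have hcK : CharZero K := charZero_of_injective_algebraMap (algebraMap ℂ K).injective
  obtain ⟨J, hJ⟩ : ∃ J, J = jac E s x := ⟨_, rfl⟩
  rw [← hJ] at hn ⊢
  have hJ0 : J ≠ 0 := by
    intro h0
    apply hn
    rw [h0, zero_div]
    exact Ge.zero
  have hA : P.ord J + 1 ≤ P.ord y := by
    by_contra h
    apply hn
    right
    rw [P.ord_div hJ0 hy0]
    omega
  have hx0 : x ≠ 0 := by
    rintro rfl
    apply hJ0
    rw [hJ]
    unfold jac
    rw [map_zero, map_zero]
    ring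
  have e1 : jac E s (x ^ 2) = 2 * x * J := by
    rw [pow_two, jac_mul, hJ]
    ring
  have e2 : jac E s (x ^ 3) = 3 * x ^ 2 * J := by
    rw [pow_succ, jac_mul, e1, hJ]
    ring
  have e3 : jac E s (y ^ 2) = (3 * x ^ 2 + a) * J := by
    rw [hy, jac_add, jac_add, e2, jac_mul, ha, hb, hJ]
    ring
  have e4 : jac E s (3 * x ^ 2 + a) = 6 * x * J := by
    have h3 : (3 : K) = algebraMap ℂ K 3 := by rw [map_ofNat]
    rw [jac_add, jac_mul, e1, ha, h3, jac_const, ← h3]
    ring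
  have h60 : (6 : K) * x ≠ 0 := mul_ne_zero (by norm_num) hx0
  have ho6 : P.ord ((6 : K) * x) = P.ord x := by
    have h3 : (6 : K) = algebraMap ℂ K 6 := by rw [map_ofNat]
    rw [P.ord_mul (by norm_num) hx0, h3, P.ord_const (by norm_num), zero_add]
  have hD0 : 3 * x ^ 2 + a ≠ 0 := by
    intro h0
    rw [h0] at e4
    have h1 : jac E s 0 = 0 := by
      unfold jac
      rw [map_zero, map_zero]
      ring
    rw [h1] at e4
    exact (mul_ne_zero h60 hJ0) e4.symm
  have hy20 : y ^ 2 ≠ 0 := pow_ne_zero 2 hy0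
  -- the three inequalities
  have i1 := (jac_ge hE hs hx0).resolve_left (by rw [← hJ]; exact hJ0)
  rw [← hJ] at i1
  have i2 := (jac_ge hE hs hy20).resolve_left (by rw [e3]; exact mul_ne_zero hD0 hJ0)
  rw [e3, P.ord_mul hD0 hJ0, P.ord_pow] at i2
  have i3 := (jac_ge hE hs hD0).resolve_left (by rw [e4]; exact mul_ne_zero h60 hJ0)
  rw [e4, P.ord_mul h60 hJ0, ho6] at i3
  push_cast at i2
  have hxo : 2 * P.ord s ≤ P.ord x := by omega
  have g3 : Ge P 0 (3 : K) := by
    have := ge_nat (P := P) 3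
    simpa using this
  have gx : Ge P (P.ord x) x := ge_ord P x
  have gx2 : Ge P (2 * P.ord x) (x ^ 2) := by
    have := gx.pow 2
    exact this.mono (by push_cast; omega)
  have gD : Ge P (P.ord (3 * x ^ 2 + a)) (3 * x ^ 2 + a) := ge_ord P _
  have hga : Ge P (4 * P.ord s) a := by
    have h1 := (gD.mono (show 4 * P.ord s ≤ P.ord (3 * x ^ 2 + a) by omega)).sub
      ((g3.mul gx2).mono (show 4 * P.ord s ≤ 0 + 2 * P.ord x by omega))
    rwa [add_sub_cancel_left] at h1
  refine ⟨hga, ?_, Or.inr (by omega), hJ0, hA, Or.inr (by omega)⟩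
  have gy : Ge P (2 * P.ord y) (y ^ 2) := by
    have := (ge_ord P y).pow 2
    exact this.mono (by push_cast; omega)
  have gx3 : Ge P (3 * P.ord x) (x ^ 3) := by
    have := gx.pow 3
    exact this.mono (by push_cast; omega)
  have h1 := ((gy.mono (show 6 * P.ord s ≤ 2 * P.ord y by omega)).sub
    (gx3.mono (show 6 * P.ord s ≤ 3 * P.ord x by omega))).sub
      ((hga.mul gx).mono (show 6 * P.ord s ≤ 4 * P.ord s + P.ord x by omega))
  have e5 : y ^ 2 - x ^ 3 - a * x = b := by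
    rw [hy]
    ring
  rwa [e5] at h1

/-- The form is regular at the horizontal divisors. -/
theorem key_horiz {P : Place ℂ K} {E : Fin 2 → Derivation ℂ K K} (hE : ∀ i, DerReg P (E i))
    {s x y a b : K} (hs : s ≠ 0) (hs0 : P.ord s = 0) (hy0 : y ≠ 0)
    (hy : y ^ 2 = x ^ 3 + a * x + b) (ha : jac E s a = 0) (hb : jac E s b = 0)
    (ha0 : Ge P 0 a) (hb0 : Ge P 0 b) (hd : 4 * a ^ 3 + 27 * b ^ 2 ≠ 0)
    (hd0 : P.ord (4 * a ^ 3 + 27 * b ^ 2) = 0) : Ge P 0 (jac E s x / y) := by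
  by_contra hn
  obtain ⟨-, -, hx, hJ0, h1, h2⟩ := key hE hs hs0.ge hy0 hy ha hb hn
  have hJ := (jac_reg hE (Or.inr hs0.ge) hx).resolve_left hJ0
  have hgy : Ge P 1 (y ^ 2) := by
    have := (ge_ord P y).pow 2
    exact this.mono (by push_cast; omega)
  have hgD : Ge P 1 (3 * x ^ 2 + a) := h2.mono (by omega)
  have e1 : 4 * a ^ 3 + 27 * b ^ 2 = (4 * a ^ 2 + (6 : ℕ) * a * x ^ 2 - (9 : ℕ) * b * x) *
      (3 * x ^ 2 + a) - ((18 : ℕ) * a * x - (27 : ℕ) * b) * y ^ 2 := by
    rw [hy]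
    push_cast
    ring
  have c1 : Ge P 0 (4 * a ^ 2 + (6 : ℕ) * a * x ^ 2 - (9 : ℕ) * b * x) := by
    have g4 : Ge P 0 (4 : K) := by
      have := ge_nat (P := P) 4
      simpa using this
    have := ((g4.mul (ha0.pow 2)).add (((ge_nat (P := P) 6).mul ha0).mul (hx.pow 2))).sub
      (((ge_nat (P := P) 9).mul hb0).mul hx)
    simpa using this
  have c2 : Ge P 0 ((18 : ℕ) * a * x - (27 : ℕ) * b) := by
    have := (((ge_nat (P := P) 18).mul ha0).mul hx).sub ((ge_nat (P := P) 27).mul hb0)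
    simpa using this
  have h3 : Ge P 1 (4 * a ^ 3 + 27 * b ^ 2) := by
    rw [e1]
    have := (c1.mul hgD).sub (c2.mul hgy)
    simpa using this
  have h4 := h3.resolve_left hd
  omega

end

end Pool.Agent.Z15
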