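import Pool.Agent.Z15.G

/-!
Elliptic surfaces without global canonical forms.
-/

set_option autoImplicit false
set_option linter.all false

open FF Polynomial Pool.Agent.W603.LV Pool.Agent.W602.GT Pool.Agent.N162.BC

namespace Pool.Agent.Z15

section

variable {K : Type} [Field K] [Algebra ℂ K]

theorem jac_aeval (E : Fin 2 → Derivation ℂ K K) (t : K) (A : ℂ[X]) :
    jac E t (aeval t A) = 0 := by
  unfold jac
  have h : ∀ i, E i (aeval t A) = aeval t (derivative A) * E i t := by
    intro i
    rw [Derivation.map_aeval, smul_eq_mul]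
  rw [h, h]
  ring

/-- the order of a polynomial at a zero of `t - t0` -/
theorem dvd_of_ge {P : Place ℂ K} {t : K} {t0 : ℂ} (h0 : 0 < P.ord (t - algebraMap ℂ K t0))
    {A : ℂ[X]} {m : ℕ} (hA : Ge P (m * P.ord (t - algebraMap ℂ K t0)) (aeval t A))
    (ht : Transcendental ℂ t) : (X - C t0) ^ m ∣ A := by
  by_cases hA0 : A = 0
  · rw [hA0]
    exact dvd_zero _
  obtain ⟨q, hq, hq'⟩ := exists_eq_pow_rootMultiplicity_mul_and_not_dvd A hA0 t0
  have h1 : aeval t (X - C t0 : ℂ[X]) = t - algebraMap ℂ K t0 := by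
    rw [map_sub, aeval_X, aeval_C]
  have hs0 : t - algebraMap ℂ K t0 ≠ 0 := by
    intro h
    rw [h, P.ord_zero] at h0
    exact lt_irrefl _ h0
  have hq0 : q.eval t0 ≠ 0 := by
    intro h
    exact hq' (dvd_iff_isRoot.2 h)
  have h2 : aeval t q ≠ 0 ∧ P.ord (aeval t q) = 0 := by
    obtain ⟨r, hr⟩ := X_sub_C_dvd_sub_C_eval (p := q) (a := t0)
    have h3 : aeval t q = algebraMap ℂ K (q.eval t0) + (t - algebraMap ℂ K t0) * aeval t r := by
      have h4 := congrArg (aeval t) hr
      rw [map_sub, aeval_C, map_mul, h1] at h4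
      rw [← h4]
      ring
    have hreg : ∀ p : ℂ[X], P.Reg (aeval t p) := by
      have ht' : P.Reg t := by
        have h5 : P.Reg (t - algebraMap ℂ K t0) := Or.inr h0.le
        have h6 := P.reg_add h5 (P.reg_const t0)
        rwa [sub_add_cancel] at h6
      intro p
      induction p using Polynomial.induction_on' with
      | add p q hp hq =>
        rw [map_add]
        exact P.reg_add hp hq
      | monomial n c =>
        rw [aeval_monomial]
        refine P.reg_mul (P.reg_const c) ?_
        have := (show Ge P 0 t from ht').pow n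
        rwa [mul_zero] at this
    have hc0 : algebraMap ℂ K (q.eval t0) ≠ 0 := by
      rwa [Ne, FaithfulSMul.algebraMap_eq_zero_iff]
    by_cases hr0 : aeval t r = 0
    · rw [h3, hr0, mul_zero, add_zero]
      exact ⟨hc0, P.ord_const hq0⟩
    · have h5 : P.ord (algebraMap ℂ K (q.eval t0)) <
          P.ord ((t - algebraMap ℂ K t0) * aeval t r) := by
        rw [P.ord_const hq0, P.ord_mul hs0 hr0]
        have := (hreg r).resolve_left hr0
        omega
      have h6 := P.ord_add_eq hc0 (mul_ne_zero hs0 hr0) h5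
      rw [← h3, P.ord_const hq0] at h6
      exact h6
  have h3 : aeval t A = (t - algebraMap ℂ K t0) ^ rootMultiplicity t0 A * aeval t q := by
    conv_lhs => rw [hq]
    rw [map_mul, map_pow, h1]
  have h4 : aeval t A ≠ 0 := by
    rw [h3]
    exact mul_ne_zero (pow_ne_zero _ hs0) h2.1
  have h5 := hA.resolve_left h4
  rw [h3, P.ord_mul (pow_ne_zero _ hs0) h2.1, P.ord_pow, h2.2, add_zero] at h5
  have h6 : m ≤ rootMultiplicity t0 A := by
    have := le_of_mul_le_mul_right h5 h0
    exact_mod_cast this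
  exact (le_rootMultiplicity_iff hA0).1 h6

/-- polynomials in `t` are units at the horizontal divisors -/
theorem ord_aeval_horiz {P : Place ℂ K} {t : K} (h0 : ∀ c : ℂ, P.ord (t - algebraMap ℂ K c) = 0)
    (ht : Transcendental ℂ t) {A : ℂ[X]} (hA : A ≠ 0) : P.ord (aeval t A) = 0 := by
  have hsp : A.Splits := IsAlgClosed.splits A
  have h1 : ∀ (s : Multiset ℂ), aeval t ((s.map fun a => (X - C a : ℂ[X])).prod) ≠ 0 ∧
      P.ord (aeval t ((s.map fun a => (X - C a : ℂ[X])).prod)) = 0 := by
    intro s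
    induction s using Multiset.induction_on with
    | empty =>
      rw [Multiset.map_zero, Multiset.prod_zero, map_one]
      exact ⟨one_ne_zero, P.ord_one⟩
    | cons a s ih =>
      rw [Multiset.map_cons, Multiset.prod_cons, map_mul, map_sub, aeval_X, aeval_C]
      have h2 : t - algebraMap ℂ K a ≠ 0 := by
        intro h
        apply ht
        rw [sub_eq_zero.1 h]
        exact isAlgebraic_algebraMap a
      exact ⟨mul_ne_zero h2 ih.1, by rw [P.ord_mul h2 ih.1, h0, ih.2, add_zero]⟩
  have h2 := hsp.eq_prod_roots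
  have h3 : aeval t A = algebraMap ℂ K A.leadingCoeff *
      aeval t ((A.roots.map fun a => (X - C a : ℂ[X])).prod) := by
    conv_lhs => rw [h2]
    rw [map_mul, aeval_C]
  have hl : A.leadingCoeff ≠ 0 := leadingCoeff_ne_zero.2 hA
  have hl' : algebraMap ℂ K A.leadingCoeff ≠ 0 := by
    rwa [Ne, FaithfulSMul.algebraMap_eq_zero_iff]
  rw [h3, P.ord_mul hl' (h1 _).1, (h1 _).2, P.ord_const hl, add_zero]

/-- **The canonical form is regular.** -/
theorem form_regular {t x y : K} (ht : Transcendental ℂ t) (hy0 : y ≠ 0) {A B : ℂ[X]} {k : ℕ}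
    (hy : y ^ 2 = x ^ 3 + aeval t A * x + aeval t B) (hd : 4 * A ^ 3 + 27 * B ^ 2 ≠ 0)
    (hmin : ∀ c : ℂ, ¬ ((X - C c) ^ 4 ∣ A ∧ (X - C c) ^ 6 ∣ B)) (hk : 2 ≤ k)
    (hA : A.natDegree ≤ 4 * k) (hB : B.natDegree ≤ 6 * k)
    (hinf : ¬ (A.natDegree ≤ 4 * (k - 1) ∧ B.natDegree ≤ 6 * (k - 1)))
    (P : Place ℂ K) (E : Fin 2 → Derivation ℂ K K) (hE : ∀ i, DerReg P (E i)) :
    P.Reg (jac E t x / y) := by
  have hcK : CharZero K := charZero_of_injective_algebraMap (algebraMap ℂ K).injective
  by_contra hn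
  have hn' : ¬ Ge P 0 (jac E t x / y) := hn
  have ht0 : t ≠ 0 := by
    rintro rfl
    exact ht isAlgebraic_zero
  have hshift : ∀ (c : ℂ) (g : K), jac E (t - algebraMap ℂ K c) g = jac E t g := by
    intro c g
    unfold jac
    rw [map_sub, map_sub, Derivation.map_algebraMap, Derivation.map_algebraMap, sub_zero,
      sub_zero]
  have hdisc : 4 * aeval t A ^ 3 + 27 * aeval t B ^ 2 = aeval t (4 * A ^ 3 + 27 * B ^ 2) := by
    simp only [map_add, map_mul, map_pow, map_ofNat]
  rcases lt_or_ge (P.ord t) 0 with hneg | hpos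
  · -- the fibre at infinity
    obtain ⟨s, hs⟩ : ∃ s, s = t⁻¹ := ⟨_, rfl⟩
    have hs0 : s ≠ 0 := by
      rw [hs]
      exact inv_ne_zero ht0
    have hso : P.ord s = -P.ord t := by rw [hs, P.ord_inv]
    have hjs : ∀ g, jac E s g = -s ^ 2 * jac E t g := by
      intro g
      unfold jac
      rw [hs, Derivation.leibniz_inv, Derivation.leibniz_inv]
      simp only [smul_eq_mul]
      field_simp
      ring
    have hjss : ∀ (n : ℕ) (g : K), jac E s (s ^ n * g) = s ^ n * jac E s g := by
      intro n g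
      have h1 : jac E s (s ^ n) = 0 := by
        have h2 := jac_aeval E s (X ^ n : ℂ[X])
        rwa [map_pow, aeval_X] at h2
      rw [jac_mul, h1, mul_zero, add_zero]
    have hjA : ∀ (n : ℕ) (p : ℂ[X]), jac E s (s ^ n * aeval t p) = 0 := by
      intro n p
      rw [hjss, hjs, jac_aeval, mul_zero, mul_zero]
    have hnot : ¬ Ge P 0 (jac E s (s ^ (2 * k) * x) / (s ^ (3 * k) * y)) := by
      intro h
      apply hn'
      obtain ⟨j, rfl⟩ := Nat.exists_eq_add_of_le hk
      have e1 : jac E t x / y = -(s ^ j * (jac E s (s ^ (2 * (2 + j)) * x) /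
          (s ^ (3 * (2 + j)) * y))) := by
        rw [hjss, hjs]
        have e2 : s ^ (3 * (2 + j)) = s ^ j * s ^ 2 * s ^ (2 * (2 + j)) := by
          rw [← pow_add, ← pow_add]
          congr 1
          ring
        rw [e2]
        have h1 : s ^ j ≠ 0 := pow_ne_zero _ hs0
        have h2 : s ^ (2 * (2 + j)) ≠ 0 := pow_ne_zero _ hs0
        field_simp
      rw [e1]
      have h1 : Ge P 0 (s ^ j) := by
        have h2 : Ge P 0 s := Or.inr (by omega)
        have := h2.pow j
        rwa [mul_zero] at this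
      have h2 := (h1.mul h).neg
      rwa [add_zero] at h2
    obtain ⟨hA', hB', -⟩ := key hE (a := s ^ (4 * k) * aeval t A) (b := s ^ (6 * k) * aeval t B)
      hs0 (by omega) (mul_ne_zero (pow_ne_zero _ hs0) hy0) (by
        have e1 : s ^ (4 * k) = (s ^ k) ^ 4 := by rw [← pow_mul]; ring_nf
        have e2 : s ^ (6 * k) = (s ^ k) ^ 6 := by rw [← pow_mul]; ring_nf
        have e3 : s ^ (3 * k) = (s ^ k) ^ 3 := by rw [← pow_mul]; ring_nf
        have e4 : s ^ (2 * k) = (s ^ k) ^ 2 := by rw [← pow_mul]; ring_nf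
        rw [e1, e2, e3, e4, mul_pow, hy]
        ring) (hjA _ _) (hjA _ _) hnot
    apply hinf
    have hdeg : ∀ (p : ℂ[X]) (c : ℕ), Ge P (c * P.ord s) (s ^ (c * k) * aeval t p) →
        p.natDegree ≤ c * (k - 1) := by
      intro p c h
      by_cases hp : p = 0
      · rw [hp, natDegree_zero]
        exact Nat.zero_le _
      obtain ⟨h1, h2⟩ := ord_aeval_neg P hneg p.natDegree p hp rfl
      have h3 := h.resolve_left (mul_ne_zero (pow_ne_zero _ hs0) h1)
      rw [P.ord_mul (pow_ne_zero _ hs0) h1, P.ord_pow, h2, hso] at h3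
      have h4 : (c : ℤ) + p.natDegree ≤ (c * k : ℕ) := by
        by_contra hcon
        push Not at hcon
        nlinarith
      have h5 : c + p.natDegree ≤ c * k := by exact_mod_cast h4
      obtain ⟨j, rfl⟩ := Nat.exists_eq_add_of_le hk
      have h6 : 2 + j - 1 = 1 + j := by omega
      rw [h6]
      nlinarith
    exact ⟨hdeg A 4 (by simpa using hA'), hdeg B 6 (by simpa using hB')⟩
  · by_cases hall : ∀ c : ℂ, P.ord (t - algebraMap ℂ K c) = 0
    · -- horizontal divisors
      apply hn'
      have h00 := hall 0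
      rw [map_zero, sub_zero] at h00
      have hreg : ∀ p : ℂ[X], Ge P 0 (aeval t p) := by
        intro p
        by_cases hp : p = 0
        · rw [hp, map_zero]
          exact Ge.zero
        · exact Or.inr (ord_aeval_horiz hall ht hp).ge
      refine key_horiz hE ht0 h00 hy0 hy (jac_aeval E t A) (jac_aeval E t B) (hreg A) (hreg B) ?_ ?_
      · rw [hdisc]
        intro h0
        exact hd ((transcendental_iff.1 ht) _ h0)
      · rw [hdisc]
        exact ord_aeval_horiz hall ht hd
    · push Not at hall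
      obtain ⟨c, hc⟩ := hall
      have hs0 : t - algebraMap ℂ K c ≠ 0 := by
        intro h
        rw [h, P.ord_zero] at hc
        exact hc rfl
      have hc' : 0 < P.ord (t - algebraMap ℂ K c) := by
        have h1 : P.Reg (t - algebraMap ℂ K c) := by
          have h2 := P.reg_add (show P.Reg t from Or.inr hpos) (P.reg_neg (P.reg_const c))
          rwa [← sub_eq_add_neg] at h2
        have h2 := h1.resolve_left hs0
        omega
      obtain ⟨h1, h2, -⟩ := key hE (s := t - algebraMap ℂ K c) hs0 hc'.le hy0 hy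
        (by rw [hshift, jac_aeval]) (by rw [hshift, jac_aeval]) (by rw [hshift]; exact hn')
      exact hmin c ⟨dvd_of_ge hc' (m := 4) (by simpa using h1) ht,
        dvd_of_ge hc' (m := 6) (by simpa using h2) ht⟩

end

end Pool.Agent.Z15
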