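import Pool.Agent.Z15.G2
import Pool.Agent.Z15.E2

/-!
Bloch's conjecture for surfaces with a pencil of curves whose Jacobian varieties are isogenous to
products of elliptic curves.
-/

set_option autoImplicit false
set_option linter.all false

open FF Polynomial Pool.Agent.W603.LV Pool.Agent.W602.GT Pool.Agent.N162.BC

namespace Pool.Agent.Z15

section

variable {K : Type} [Field K] [Algebra ℂ K]

/-- minimal Weierstrass equations -/
theorem exists_minimal {t a b : K} (ht : Transcendental ℂ t)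
    (ha : a ∈ IntermediateField.adjoin ℂ {t}) (hb : b ∈ IntermediateField.adjoin ℂ {t})
    (hd : 4 * a ^ 3 + 27 * b ^ 2 ≠ 0) :
    ∃ (A B : ℂ[X]) (l : K), l ∈ IntermediateField.adjoin ℂ {t} ∧ l ≠ 0 ∧
      aeval t A = l ^ 4 * a ∧ aeval t B = l ^ 6 * b ∧ 4 * A ^ 3 + 27 * B ^ 2 ≠ 0 ∧
        ∀ c : ℂ, ¬ ((X - C c) ^ 4 ∣ A ∧ (X - C c) ^ 6 ∣ B) := by
  classical
  have hinj : ∀ p : ℂ[X], aeval t p = 0 → p = 0 := transcendental_iff.1 ht
  have hdisc : ∀ A B : ℂ[X], aeval t (4 * A ^ 3 + 27 * B ^ 2) =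
      4 * aeval t A ^ 3 + 27 * aeval t B ^ 2 := by
    intro A B
    simp only [map_add, map_mul, map_pow, map_ofNat]
  have hd0 : ∀ (A B : ℂ[X]) (l : K), l ≠ 0 → aeval t A = l ^ 4 * a → aeval t B = l ^ 6 * b →
      4 * A ^ 3 + 27 * B ^ 2 ≠ 0 := by
    intro A B l hl h1 h2 h0
    have h3 := hdisc A B
    rw [h0, map_zero, h1, h2] at h3
    have h4 : l ^ 12 * (4 * a ^ 3 + 27 * b ^ 2) = 0 := by
      rw [h3]
      ring
    exact (mul_ne_zero (pow_ne_zero _ hl) hd) h4
  have hex : ∃ N : ℕ, ∃ (A B : ℂ[X]) (l : K), l ∈ IntermediateField.adjoin ℂ {t} ∧ l ≠ 0 ∧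
      aeval t A = l ^ 4 * a ∧ aeval t B = l ^ 6 * b ∧ (4 * A ^ 3 + 27 * B ^ 2).natDegree = N := by
    have hrep : ∀ u ∈ IntermediateField.adjoin ℂ {t}, ∃ p q : ℂ[X], aeval t q ≠ 0 ∧
        u * aeval t q = aeval t p := by
      intro u hu
      obtain ⟨p, q, h1⟩ := (IntermediateField.mem_adjoin_simple_iff ℂ u).1 hu
      by_cases hq : aeval t q = 0
      · refine ⟨0, 1, by rw [map_one]; exact one_ne_zero, ?_⟩
        rw [h1, hq, div_zero, zero_mul, map_zero]
      · refine ⟨p, q, hq, ?_⟩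
        rw [h1, div_mul_cancel₀ _ hq]
    obtain ⟨p, q, hq, hp⟩ := hrep a ha
    obtain ⟨r, s, hs, hr⟩ := hrep b hb
    refine ⟨_, q ^ 3 * s ^ 4 * p, q ^ 6 * s ^ 5 * r, aeval t (q * s), ?_, ?_, ?_, ?_, rfl⟩
    · exact IntermediateField.mem_adjoin_simple_iff ℂ _ |>.2 ⟨q * s, 1, by rw [map_one, div_one]⟩
    · rw [map_mul]
      exact mul_ne_zero hq hs
    · rw [map_mul, map_mul, map_pow, map_pow, ← hp, map_mul]
      ring
    · rw [map_mul, map_mul, map_pow, map_pow, ← hr, map_mul]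
      ring
  obtain ⟨A, B, l, hlm, hl, hA, hB, hN⟩ := Nat.find_spec hex
  refine ⟨A, B, l, hlm, hl, hA, hB, hd0 A B l hl hA hB, ?_⟩
  rintro c ⟨⟨A1, hA1⟩, ⟨B1, hB1⟩⟩
  have htc : t - algebraMap ℂ K c ≠ 0 := by
    intro h
    apply ht
    rw [sub_eq_zero.1 h]
    exact isAlgebraic_algebraMap c
  have hXc : aeval t (X - C c : ℂ[X]) = t - algebraMap ℂ K c := by
    rw [map_sub, aeval_X, aeval_C]
  have hA1' : aeval t A1 = (l / (t - algebraMap ℂ K c)) ^ 4 * a := by
    have h1 := congrArg (aeval t) hA1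
    rw [map_mul, map_pow, hXc, hA] at h1
    rw [div_pow]
    field_simp
    rw [h1]
    ring
  have hB1' : aeval t B1 = (l / (t - algebraMap ℂ K c)) ^ 6 * b := by
    have h1 := congrArg (aeval t) hB1
    rw [map_mul, map_pow, hXc, hB] at h1
    rw [div_pow]
    field_simp
    rw [h1]
    ring
  have hl1 : l / (t - algebraMap ℂ K c) ≠ 0 := div_ne_zero hl htc
  have htm : t - algebraMap ℂ K c ∈ IntermediateField.adjoin ℂ {t} :=
    sub_mem (IntermediateField.mem_adjoin_simple_self ℂ t) (IntermediateField.algebraMap_mem _ c)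
  have hne := hd0 A1 B1 _ hl1 hA1' hB1'
  have hlt : (4 * A1 ^ 3 + 27 * B1 ^ 2).natDegree < Nat.find hex := by
    rw [← hN]
    have h1 : 4 * A ^ 3 + 27 * B ^ 2 = (X - C c) ^ 12 * (4 * A1 ^ 3 + 27 * B1 ^ 2) := by
      rw [hA1, hB1]
      ring
    rw [h1, natDegree_mul (pow_ne_zero _ (X_sub_C_ne_zero c)) hne, natDegree_pow, natDegree_X_sub_C]
    omega
  exact Nat.find_min hex hlt ⟨A1, B1, _, div_mem hlm htm, hl1, hA1', hB1', rfl⟩

theorem jac_pluri (t g h : K) : IsPluri 1 (fun E : Fin 2 → Derivation ℂ K K => jac E t g / h) := by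
  intro A D
  unfold jac
  simp only [Fin.sum_univ_two, Matrix.det_fin_two, Derivation.add_apply, Derivation.smul_apply,
    smul_eq_mul, pow_one]
  ring

/-- **The Weierstrass equations have low degree if there are no global canonical forms.** -/
theorem low_degree (hpg : ∀ ω : (Fin 2 → Derivation ℂ K K) → K, GlobalForm 2 ω → ω = 0)
    {t x y a b : K} (ht : Transcendental ℂ t) [IsFF (IntermediateField.adjoin ℂ {t}) K]
    (hx : Transcendental (IntermediateField.adjoin ℂ {t}) x)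
    (ha : a ∈ IntermediateField.adjoin ℂ {t}) (hb : b ∈ IntermediateField.adjoin ℂ {t})
    (hd : 4 * a ^ 3 + 27 * b ^ 2 ≠ 0) (hy : y ^ 2 = x ^ 3 + a * x + b) (hy0 : y ≠ 0) :
    ∃ (A B : ℂ[X]) (l : K), l ∈ IntermediateField.adjoin ℂ {t} ∧ l ≠ 0 ∧
      aeval t A = l ^ 4 * a ∧ aeval t B = l ^ 6 * b ∧ 4 * A ^ 3 + 27 * B ^ 2 ≠ 0 ∧
        A.natDegree ≤ 4 ∧ B.natDegree ≤ 6 := by
  classical
  have hcK : CharZero K := charZero_of_injective_algebraMap (algebraMap ℂ K).injective
  have hcL : CharZero (IntermediateField.adjoin ℂ {t}) :=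
    charZero_of_injective_algebraMap (algebraMap ℂ (IntermediateField.adjoin ℂ {t})).injective
  obtain ⟨A, B, l, hlm, hl, hA, hB, hAB, hmin⟩ := exists_minimal ht ha hb hd
  refine ⟨A, B, l, hlm, hl, hA, hB, hAB, ?_⟩
  by_contra hcon
  have hex : ∃ k : ℕ, A.natDegree ≤ 4 * k ∧ B.natDegree ≤ 6 * k :=
    ⟨A.natDegree + B.natDegree, by omega, by omega⟩
  obtain ⟨hk1, hk2⟩ := Nat.find_spec hex
  have hk : 2 ≤ Nat.find hex := by
    by_contra h
    apply hcon
    constructor <;> omega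
  have hinf : ¬ (A.natDegree ≤ 4 * (Nat.find hex - 1) ∧ B.natDegree ≤ 6 * (Nat.find hex - 1)) :=
    Nat.find_min hex (by omega)
  have hy' : (l ^ 3 * y) ^ 2 = (l ^ 2 * x) ^ 3 + aeval t A * (l ^ 2 * x) + aeval t B := by
    rw [hA, hB, mul_pow, hy]
    ring
  have hG : GlobalForm 2 (fun E : Fin 2 → Derivation ℂ K K => jac E t (l ^ 2 * x) / (l ^ 3 * y)) :=
    ⟨jac_pluri t _ _, fun P _ E hE => form_regular ht (mul_ne_zero (pow_ne_zero _ hl) hy0) hy' hAB
      hmin hk hk1 hk2 hinf P E hE⟩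
  have h0 := hpg _ hG
  -- vector fields
  have hind : AlgebraicIndependent ℂ (fun i : ({t} : Set K) => (i : K)) := by
    rw [algebraicIndependent_unique_type_iff]
    exact ht
  obtain ⟨S, hS, hSb⟩ := exists_isTranscendenceBasis_superset (R := ℂ) (A := K) (s := {t}) hind
  obtain ⟨E0, hE0⟩ := Pool.Agent.W602.GT.exists_der _ hSb (fun _ => 1)
  have hE0t : E0 t = 1 := hE0 ⟨t, hS rfl⟩
  obtain ⟨E1, hE1⟩ := Pool.Agent.W602.GT.exists_der (fun _ : Unit => x) (IsFF.basis hx)
    (fun _ => 1)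
  have hE1x : E1 x = 1 := hE1 ()
  have hE1L : ∀ u ∈ IntermediateField.adjoin ℂ {t}, E1 u = 0 := fun u hu =>
    E1.map_algebraMap (⟨u, hu⟩ : IntermediateField.adjoin ℂ {t})
  have h1 := congrFun h0 ![E0, E1.restrictScalars ℂ]
  have h2 : jac ![E0, E1.restrictScalars ℂ] t (l ^ 2 * x) = l ^ 2 := by
    unfold jac
    simp only [Matrix.cons_val_zero, Matrix.cons_val_one]
    have h3 : (E1.restrictScalars ℂ) t = 0 := hE1L t (IntermediateField.mem_adjoin_simple_self ℂ t)
    have h4 : (E1.restrictScalars ℂ) (l ^ 2 * x) = l ^ 2 := by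
      change E1 (l ^ 2 * x) = l ^ 2
      rw [E1.leibniz, hE1x, hE1L _ (pow_mem hlm 2), smul_zero, add_zero, smul_eq_mul, mul_one]
    rw [h3, h4, hE0t]
    ring
  simp only [h2, Pi.zero_apply] at h1
  exact (div_ne_zero (pow_ne_zero _ hl) (mul_ne_zero (pow_ne_zero _ hl) hy0)) h1

/-- the polynomial `X ^ 3 + A(t) X + B(t)` -/
noncomputable def weier (A B : ℂ[X]) : (MvPolynomial (Fin 1) ℂ)[X] :=
  X ^ 3 + C (aeval (MvPolynomial.X 0) A) * X + C (aeval (MvPolynomial.X 0) B)

theorem totalDegree_aeval (A : ℂ[X]) :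
    (aeval (MvPolynomial.X 0 : MvPolynomial (Fin 1) ℂ) A).totalDegree ≤ A.natDegree := by
  rw [aeval_eq_sum_range]
  refine MvPolynomial.totalDegree_finsetSum_le fun i hi => ?_
  refine (MvPolynomial.totalDegree_smul_le _ _).trans ?_
  refine (MvPolynomial.totalDegree_pow _ _).trans ?_
  rw [MvPolynomial.totalDegree_X, mul_one]
  exact Nat.lt_succ_iff.1 (Finset.mem_range.1 hi)

theorem weier_coeff (A B : ℂ[X]) (j : ℕ) (h : (weier A B).coeff j ≠ 0) (hA : A.natDegree ≤ 4)
    (hB : B.natDegree ≤ 6) : ((weier A B).coeff j).totalDegree + 2 * j ≤ 2 * (1 + 2) := by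
  have h1 : ∀ j, (weier A B).coeff j = (if j = 3 then 1 else 0) +
      (if j = 1 then aeval (MvPolynomial.X 0) A else 0) +
        (if j = 0 then aeval (MvPolynomial.X 0) B else 0) := by
    intro j
    unfold weier
    rw [coeff_add, coeff_add, coeff_X_pow, coeff_C_mul, coeff_X, coeff_C]
    congr 2
    by_cases h : j = 1
    · rw [if_pos h, if_pos h.symm, mul_one]
    · rw [if_neg h, if_neg (Ne.symm h), mul_zero]
  have hj : j = 0 ∨ j = 1 ∨ j = 3 := by
    by_contra hcon
    push Not at hcon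
    apply h
    rw [h1, if_neg hcon.2.2, if_neg hcon.2.1, if_neg hcon.1]
    ring
  have h2 := totalDegree_aeval A
  have h3 := totalDegree_aeval B
  rcases hj with rfl | rfl | rfl
  · rw [h1]
    simp only [show ¬ (0 = 3) by decide, show ¬ (0 = 1) by decide, if_false, if_true, zero_add]
    omega
  · rw [h1]
    simp only [show ¬ (1 = 3) by decide, show ¬ (1 = 0) by decide, if_false, if_true, zero_add,
      add_zero]
    omega
  · rw [h1]
    simp only [show ¬ (3 = 1) by decide, show ¬ (3 = 0) by decide, if_false, if_true, add_zero,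
      MvPolynomial.totalDegree_one]
    omega

theorem weier_natDegree (A B : ℂ[X]) : (weier A B).natDegree = 3 := by
  unfold weier
  compute_degree!

theorem weier_at (A B : ℂ[X]) (t : K) : atBase (fun _ : Fin 1 => t) (weier A B) =
    X ^ 3 + C (aeval t A) * X + C (aeval t B) := by
  have h1 : ∀ p : ℂ[X], (MvPolynomial.aeval (fun _ : Fin 1 => t) :
      MvPolynomial (Fin 1) ℂ →ₐ[ℂ] K).toRingHom (aeval (MvPolynomial.X 0) p) = aeval t p := by
    intro p
    change (MvPolynomial.aeval (fun _ : Fin 1 => t) : MvPolynomial (Fin 1) ℂ →ₐ[ℂ] K)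
      (aeval (MvPolynomial.X 0) p) = aeval t p
    rw [← Polynomial.aeval_algHom_apply, MvPolynomial.aeval_X]
  unfold atBase weier
  rw [Polynomial.map_add, Polynomial.map_add, Polynomial.map_pow, Polynomial.map_mul,
    Polynomial.map_X, Polynomial.map_C, Polynomial.map_C, h1, h1]

theorem weier_sep {F : Type} [Field F] [CharZero F] (a b : F) (hd : 4 * a ^ 3 + 27 * b ^ 2 ≠ 0) :
    (X ^ 3 + C a * X + C b : F[X]).Separable := by
  have h1 : derivative (X ^ 3 + C a * X + C b : F[X]) = 3 * X ^ 2 + C a := by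
    simp only [derivative_add, derivative_X_pow, derivative_C_mul, derivative_X, derivative_C,
      mul_one, add_zero]
    norm_num
    rfl
  rw [separable_def, h1]
  refine ⟨C (4 * a ^ 3 + 27 * b ^ 2)⁻¹ * (-9 * (2 * C a * X - 3 * C b)),
    C (4 * a ^ 3 + 27 * b ^ 2)⁻¹ * (4 * C a ^ 2 + 6 * C a * X ^ 2 - 9 * C b * X), ?_⟩
  have h2 : C (4 * a ^ 3 + 27 * b ^ 2)⁻¹ * (4 * C a ^ 3 + 27 * C b ^ 2) = (1 : F[X]) := by
    have h3 : (4 * C a ^ 3 + 27 * C b ^ 2 : F[X]) = C (4 * a ^ 3 + 27 * b ^ 2) := by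
      simp only [map_add, map_mul, map_pow, map_ofNat]
    rw [h3, ← C_mul, inv_mul_cancel₀ hd, C_1]
  rw [← h2]
  ring

end

/-- **Bloch's conjecture for surfaces with a pencil of curves whose Jacobians are isogenous to
products of elliptic curves.** -/
theorem main2 {K Ω : Type} [Field K] [Algebra ℂ K] [Algebra.EssFiniteType ℂ K] [Field Ω]
    [Algebra ℂ Ω] [IsAlgClosed Ω] (hK : Algebra.trdeg ℂ K = 2) (hΩ : Algebra.trdeg ℂ Ω = 2)
    (hpg : ∀ ω : (Fin 2 → Derivation ℂ K K) → K, GlobalForm 2 ω → ω = 0)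
    {t : K} (ht : Transcendental ℂ t)
    (hLK : ∀ a : K, IsAlgebraic (IntermediateField.adjoin ℂ {t}) a →
      a ∈ IntermediateField.adjoin ℂ {t})
    (D : Derivation ℂ K K) (hD : D ≠ 0) (hDt : D t = 0) {ι : Type} [Fintype ι] (x y a b : ι → K)
    (ha : ∀ i, a i ∈ IntermediateField.adjoin ℂ {t})
    (hb : ∀ i, b i ∈ IntermediateField.adjoin ℂ {t})
    (hd : ∀ i, 4 * a i ^ 3 + 27 * b i ^ 2 ≠ 0)
    (hx : ∀ i, x i ∉ IntermediateField.adjoin ℂ {t})
    (hy : ∀ i, y i ^ 2 = x i ^ 3 + a i * x i + b i) (c : ι → ℚ)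
    (hid : ∀ T, RegForm (IntermediateField.adjoin ℂ {t}) D T →
      T = ∑ i, (c i : K) * transfer (IntermediateField.adjoin ℂ {t, x i, y i}) D (x i) T)
    (σ : K →ₐ[ℂ] Ω) : ∃ N : ℕ, 0 < N ∧ Finsupp.single σ (N : ℤ) ∈ Rat K Ω := by
  classical
  have hcK : CharZero K := charZero_of_injective_algebraMap (algebraMap ℂ K).injective
  have hcL : CharZero (IntermediateField.adjoin ℂ {t}) :=
    charZero_of_injective_algebraMap (algebraMap ℂ (IntermediateField.adjoin ℂ {t})).injective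
  have hK' : Algebra.trdeg ℂ K = (1 + 1 : ℕ) := by
    rw [hK]
    norm_num
  have hΩ' : Algebra.trdeg ℂ Ω = (1 + 1 : ℕ) := by
    rw [hΩ]
    norm_num
  have hL : Algebra.trdeg ℂ (IntermediateField.adjoin ℂ {t}) = (1 : ℕ) := by
    rw [trdeg_adjoin_simple ht, Nat.cast_one]
  have hess : Algebra.EssFiniteType (IntermediateField.adjoin ℂ {t}) K :=
    Algebra.EssFiniteType.of_comp ℂ (IntermediateField.adjoin ℂ {t}) K
  have hFF : IsFF (IntermediateField.adjoin ℂ {t}) K := ⟨hess, trdeg_one hK' hL⟩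
  have htm : t ∈ IntermediateField.adjoin ℂ {t} := IntermediateField.mem_adjoin_simple_self ℂ t
  have hxt : ∀ i, Transcendental (IntermediateField.adjoin ℂ {t}) (x i) :=
    fun i h => hx i (hLK _ h)
  have hDL : ∀ l ∈ IntermediateField.adjoin ℂ {t}, D l = 0 := by
    intro l hl
    induction hl using IntermediateField.adjoin_induction with
    | mem a ha =>
      rw [Set.mem_singleton_iff] at ha
      rw [ha, hDt]
    | algebraMap z => exact D.map_algebraMap z
    | add a b _ _ ha hb => rw [map_add, ha, hb, add_zero]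
    | inv a _ ha => rw [D.leibniz_inv, ha, smul_zero]
    | mul a b _ _ ha hb => rw [D.leibniz, ha, hb, smul_zero, smul_zero, add_zero]
  have hDx : ∀ i, D (x i) ≠ 0 := by
    intro i h0
    apply hD
    let D' : Derivation (IntermediateField.adjoin ℂ {t}) K K := Derivation.mk'
      { toFun := fun a => D a
        map_add' := fun a b => map_add D a b
        map_smul' := fun l a => by
          change D (l • a) = l • D a
          rw [Algebra.smul_def, Algebra.smul_def, D.leibniz]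
          have h1 : D (algebraMap (IntermediateField.adjoin ℂ {t}) K l) = 0 := hDL _ l.2
          rw [h1, smul_zero, add_zero, smul_eq_mul] }
      (fun a b => D.leibniz a b)
    have h4 : D' = 0 := by
      refine Pool.Agent.W602.GT.der_ext (fun _ : Unit => x i) (IsFF.basis (hxt i)) fun _ => ?_
      change D (x i) = 0
      exact h0
    ext a
    change D' a = 0
    rw [h4]
    rfl
  have hy0 : ∀ i, y i ≠ 0 := by
    intro i h0
    have h1 := hy i
    rw [h0] at h1
    let a' : IntermediateField.adjoin ℂ {t} := ⟨a i, ha i⟩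
    let b' : IntermediateField.adjoin ℂ {t} := ⟨b i, hb i⟩
    have h2 : aeval (x i) (X ^ 3 + C a' * X + C b' : (IntermediateField.adjoin ℂ {t})[X]) = 0 := by
      rw [map_add, map_add, map_mul, map_pow, aeval_X, aeval_C, aeval_C]
      change x i ^ 3 + a i * x i + b i = 0
      rw [← h1]
      ring
    have h3 := (transcendental_iff.1 (hxt i)) _ h2
    have h4 := congrArg (fun p => coeff p 3) h3
    simp [coeff_X, coeff_C] at h4
  have hLB : ∀ i, IntermediateField.adjoin ℂ {t} ≤ IntermediateField.adjoin ℂ {t, x i, y i} :=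
    fun i => IntermediateField.adjoin.mono ℂ _ _ (by
      intro z hz
      rw [Set.mem_singleton_iff] at hz
      rw [hz]
      exact Set.mem_insert _ _)
  have hxB : ∀ i, x i ∈ IntermediateField.adjoin ℂ {t, x i, y i} := fun i =>
    IntermediateField.subset_adjoin ℂ _ (Or.inr (Or.inl rfl))
  have hyB : ∀ i, y i ∈ IntermediateField.adjoin ℂ {t, x i, y i} := fun i =>
    IntermediateField.subset_adjoin ℂ _ (Or.inr (Or.inr rfl))
  have hbase : base (fun _ : Fin 1 => t) = IntermediateField.adjoin ℂ {t} := by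
    unfold base
    congr 1
    exact Set.range_const
  have hfam : ∀ i (l : K), l ∈ IntermediateField.adjoin ℂ {t} → l ≠ 0 →
      IntermediateField.adjoin ℂ {t, x i, y i} =
        family (fun _ : Fin 1 => t) (l ^ 2 * x i) (l ^ 3 * y i) := by
    intro i l hl hl0
    have htf : t ∈ family (fun _ : Fin 1 => t) (l ^ 2 * x i) (l ^ 3 * y i) :=
      IntermediateField.subset_adjoin ℂ _ (Or.inl ⟨0, rfl⟩)
    have hlf : l ∈ family (fun _ : Fin 1 => t) (l ^ 2 * x i) (l ^ 3 * y i) := by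
      have h1 : IntermediateField.adjoin ℂ {t} ≤
          family (fun _ : Fin 1 => t) (l ^ 2 * x i) (l ^ 3 * y i) := by
        rw [IntermediateField.adjoin_simple_le_iff]
        exact htf
      exact h1 hl
    apply le_antisymm
    · rw [IntermediateField.adjoin_le_iff]
      rintro z (rfl | rfl | hz)
      · exact htf
      · have h1 : l ^ 2 * x i ∈ family (fun _ : Fin 1 => t) (l ^ 2 * x i) (l ^ 3 * y i) :=
          IntermediateField.subset_adjoin ℂ _ (Or.inr (Or.inl rfl))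
        have h2 := mul_mem (inv_mem (pow_mem hlf 2)) h1
        rwa [inv_mul_cancel_left₀ (pow_ne_zero 2 hl0)] at h2
      · rw [Set.mem_singleton_iff] at hz
        rw [hz]
        have h1 : l ^ 3 * y i ∈ family (fun _ : Fin 1 => t) (l ^ 2 * x i) (l ^ 3 * y i) :=
          IntermediateField.subset_adjoin ℂ _ (Or.inr (Or.inr rfl))
        have h2 := mul_mem (inv_mem (pow_mem hlf 3)) h1
        rwa [inv_mul_cancel_left₀ (pow_ne_zero 3 hl0)] at h2
    · unfold family
      rw [IntermediateField.adjoin_le_iff]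
      rintro z (⟨_, rfl⟩ | rfl | hz)
      · exact hLB i htm
      · exact mul_mem (pow_mem (hLB i hl) 2) (hxB i)
      · rw [Set.mem_singleton_iff] at hz
        rw [hz]
        exact mul_mem (pow_mem (hLB i hl) 3) (hyB i)
  have hFFb : IsFF (base (fun _ : Fin 1 => t)) K := by
    rw [hbase]
    exact hFF
  have hfin : ∀ i, FiniteDimensional (IntermediateField.adjoin ℂ {t, x i, y i}) K := by
    intro i
    rw [hfam i 1 (one_mem _) one_ne_zero]
    refine family_finite _ _ _ ?_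
    rw [hbase, one_pow, one_mul]
    exact hxt i
  have hti : AlgebraicIndependent ℂ (fun _ : Fin 1 => t) := by
    rw [algebraicIndependent_unique_type_iff]
    exact ht
  refine assemble hK' hΩ' (IntermediateField.adjoin ℂ {t}) hL hLK D hD hDL
    (fun i => IntermediateField.adjoin ℂ {t, x i, y i}) hLB x hxB hDx c hid σ (fun i => ?_)
  obtain ⟨A, B, l, hlm, hl0, hA, hB, hAB, hA4, hB6⟩ := low_degree hpg ht (hxt i) (ha i) (hb i)
    (hd i) (hy i) (hy0 i)
  refine pre_family (n := 1) (m := 2) one_pos hti (F := weier A B) (x := l ^ 2 * x i)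
    (y := l ^ 3 * y i) (fun j hj => weier_coeff A B j hj hA4 hB6) (weier_natDegree A B).ge ?_ ?_ ?_
    _ (hfam i l hlm hl0) σ
  · rw [weier_at]
    refine weier_sep _ _ ?_
    have h1 : 4 * aeval t A ^ 3 + 27 * aeval t B ^ 2 = aeval t (4 * A ^ 3 + 27 * B ^ 2) := by
      simp only [map_add, map_mul, map_pow, map_ofNat]
    rw [h1]
    intro h0
    exact hAB ((transcendental_iff.1 ht) _ h0)
  · rw [hbase]
    intro h1
    apply hxt i
    have h2 : IsAlgebraic (IntermediateField.adjoin ℂ {t}) (l ^ 2)⁻¹ :=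
      isAlgebraic_algebraMap (⟨(l ^ 2)⁻¹, inv_mem (pow_mem hlm 2)⟩ : IntermediateField.adjoin ℂ {t})
    have h3 := h2.mul h1
    rwa [inv_mul_cancel_left₀ (pow_ne_zero 2 hl0)] at h3
  · rw [weier_at, eval_add, eval_add, eval_mul, eval_pow, eval_X, eval_C, eval_C, hA, hB, mul_pow,
      hy i]
    ring

end Pool.Agent.Z15
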